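import Pool.Agent.Lib.H54Z.Def

set_option autoImplicit false

namespace Pool.Agent.H54Z

/-- a repetition of type `(l,d)` at the head of the word -/
def Pat (w : List ℕ) (l d : ℕ) : Prop :=
  2 * l + d ≤ w.length ∧ w.take l = (w.drop (l + d)).take l

def Bad (w : List ℕ) : Prop :=
  Pat w 1 0 ∨ Pat w 2 0 ∨ Pat w 2 1 ∨ ∃ l, 2 ≤ l ∧ Pat w l 2

open Classical in
/-- one-letter extensions of the words of `S` -/
noncomputable def ext (A : Finset ℕ) (S : Finset (List ℕ)) : Finset (List ℕ) :=
  (A ×ˢ S).image (fun p => p.1 :: p.2)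

open Classical in
noncomputable def good (L : ℕ → Finset ℕ) : ℕ → Finset (List ℕ)
  | 0 => {[]}
  | n + 1 => (ext (L n) (good L n)).filter (fun w => ¬ Bad w)

theorem mem_ext {A : Finset ℕ} {S : Finset (List ℕ)} {w : List ℕ} :
    w ∈ ext A S ↔ ∃ a ∈ A, ∃ v ∈ S, w = a :: v := by
  unfold ext
  constructor
  · intro h
    simp only [Finset.mem_image, Finset.mem_product, Prod.exists] at h
    obtain ⟨a, v, ⟨ha, hv⟩, rfl⟩ := h
    exact ⟨a, ha, v, hv, rfl⟩
  · rintro ⟨a, ha, v, hv, rfl⟩
    simp only [Finset.mem_image, Finset.mem_product, Prod.exists]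
    exact ⟨a, v, ⟨ha, hv⟩, rfl⟩

theorem card_ext (A : Finset ℕ) (S : Finset (List ℕ)) : (ext A S).card = A.card * S.card := by
  unfold ext
  rw [Finset.card_image_of_injective, Finset.card_product]
  intro p q h
  simp only [List.cons.injEq] at h
  exact Prod.ext h.1 h.2

theorem mem_good_succ {L : ℕ → Finset ℕ} {n : ℕ} {w : List ℕ} :
    w ∈ good L (n + 1) ↔ (∃ a ∈ L n, ∃ v ∈ good L n, w = a :: v) ∧ ¬ Bad w := by
  classical
  simp only [good, Finset.mem_filter, mem_ext]

theorem length_good {L : ℕ → Finset ℕ} {n : ℕ} {w : List ℕ} (h : w ∈ good L n) :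
    w.length = n := by
  induction n generalizing w with
  | zero => simp [good] at h; simp [h]
  | succ n ih =>
    obtain ⟨⟨a, _, v, hv, rfl⟩, _⟩ := mem_good_succ.1 h
    simp [ih hv]

theorem drop_good {L : ℕ → Finset ℕ} {n k : ℕ} {w : List ℕ} (h : w ∈ good L (n + k)) :
    w.drop k ∈ good L n := by
  induction k generalizing w with
  | zero => simpa using h
  | succ k ih =>
    obtain ⟨⟨a, _, v, hv, rfl⟩, _⟩ := mem_good_succ.1 (show w ∈ good L (n + k + 1) from h)
    simpa using ih hv

open Classical in
theorem card_pat (L : ℕ → Finset ℕ) (n l d : ℕ) (hl : 1 ≤ l) :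
    ((ext (L n) (good L n)).filter (fun w => Pat w l d)).card ≤ (good L (n + 1 - l)).card := by
  apply Finset.card_le_card_of_injOn (fun w => w.drop l)
  · intro w hw
    simp only [Finset.coe_filter, Set.mem_setOf_eq, mem_ext] at hw
    obtain ⟨⟨a, _, v, hv, rfl⟩, hp⟩ := hw
    have h1 := hp.1
    rw [List.length_cons, length_good hv] at h1
    have h2 : v ∈ good L ((n + 1 - l) + (l - 1)) := by
      have : (n + 1 - l) + (l - 1) = n := by omega
      rw [this]; exact hv
    have h3 := drop_good h2
    have h4 : (a :: v).drop l = v.drop (l - 1) := by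
      obtain ⟨m, rfl⟩ : ∃ m, l = m + 1 := ⟨l - 1, by omega⟩
      simp
    simp only [Finset.mem_coe]
    rw [h4]
    exact h3
  · intro w hw w' hw' he
    simp only [Finset.coe_filter, Set.mem_setOf_eq] at hw hw'
    simp only at he
    have e1 : w.take l = w'.take l := by
      rw [hw.2.2, hw'.2.2, ← List.drop_drop, ← List.drop_drop, he]
    rw [← List.take_append_drop l w, ← List.take_append_drop l w', e1, he]

open Classical in
theorem card_bad (L : ℕ → Finset ℕ) (n : ℕ) :
    ((ext (L n) (good L n)).filter (fun w => Bad w)).card ≤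
      (good L n).card + 2 * (if n = 0 then 0 else (good L (n - 1)).card) +
        ∑ m ∈ Finset.range n, (good L m).card := by
  set E := ext (L n) (good L n) with hE
  have hlen : ∀ w ∈ E, w.length = n + 1 := by
    intro w hw
    obtain ⟨a, _, v, hv, rfl⟩ := mem_ext.1 hw
    simp [length_good hv]
  have hsub : E.filter (fun w => Bad w) ⊆
      (E.filter (fun w => Pat w 1 0)) ∪ (E.filter (fun w => Pat w 2 0)) ∪
        (E.filter (fun w => Pat w 2 1)) ∪
        (Finset.range n).biUnion (fun m => E.filter (fun w => Pat w (n + 1 - m) 2)) := by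
    intro w hw
    rw [Finset.mem_filter] at hw
    obtain ⟨hwE, hb⟩ := hw
    simp only [Finset.mem_union, Finset.mem_biUnion, Finset.mem_filter, Finset.mem_range]
    rcases hb with h | h | h | ⟨l, hl, h⟩
    · left; left; left; exact ⟨hwE, h⟩
    · left; left; right; exact ⟨hwE, h⟩
    · left; right; exact ⟨hwE, h⟩
    · right
      have h1 := h.1
      rw [hlen w hwE] at h1
      refine ⟨n + 1 - l, by omega, hwE, ?_⟩
      have : n + 1 - (n + 1 - l) = l := by omega
      rw [this]; exact h
  have h2 : ∀ d, ((E.filter (fun w => Pat w 2 d))).card ≤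
      (if n = 0 then 0 else (good L (n - 1)).card) := by
    intro d
    split_ifs with hn
    · rw [Nat.le_zero, Finset.card_eq_zero, Finset.filter_eq_empty_iff]
      intro w hw hp
      have h1 := hp.1
      rw [hlen w hw] at h1
      omega
    · have := card_pat L n 2 d (by norm_num)
      have e : n + 1 - 2 = n - 1 := by omega
      rw [e] at this
      exact this
  have h1 : ((E.filter (fun w => Pat w 1 0))).card ≤ (good L n).card := by
    have := card_pat L n 1 0 le_rfl
    simpa using this
  have h3 : ((Finset.range n).biUnion (fun m => E.filter (fun w => Pat w (n + 1 - m) 2))).card ≤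
      ∑ m ∈ Finset.range n, (good L m).card := by
    refine Finset.card_biUnion_le.trans (Finset.sum_le_sum ?_)
    intro m hm
    rw [Finset.mem_range] at hm
    have := card_pat L n (n + 1 - m) 2 (by omega)
    have e : n + 1 - (n + 1 - m) = m := by omega
    rw [e] at this
    exact this
  have hc := Finset.card_le_card hsub
  have u1 := Finset.card_union_le ((E.filter (fun w => Pat w 1 0)) ∪ (E.filter (fun w => Pat w 2 0)) ∪
        (E.filter (fun w => Pat w 2 1)))
        ((Finset.range n).biUnion (fun m => E.filter (fun w => Pat w (n + 1 - m) 2)))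
  have u2 := Finset.card_union_le ((E.filter (fun w => Pat w 1 0)) ∪ (E.filter (fun w => Pat w 2 0)))
        (E.filter (fun w => Pat w 2 1))
  have u3 := Finset.card_union_le (E.filter (fun w => Pat w 1 0)) (E.filter (fun w => Pat w 2 0))
  have a := h2 0
  have b := h2 1
  omega

theorem growth (L : ℕ → Finset ℕ) (N : ℕ) (hL : ∀ i, i < N → 5 ≤ (L i).card) :
    ∀ n, n ≤ N → 3 * ∑ m ∈ Finset.range n, (good L m).card ≤ 2 * (good L n).card ∧
      5 * (if n = 0 then 0 else (good L (n - 1)).card) ≤ 2 * (good L n).card ∧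
      0 < (good L n).card := by
  classical
  intro n
  induction n with
  | zero => intro _; simp [good]
  | succ n ih =>
    intro hn
    obtain ⟨i1, i2, i3⟩ := ih (by omega)
    have hb := card_bad L n
    have h5 := hL n (by omega)
    have hs := Finset.card_filter_add_card_filter_not (s := ext (L n) (good L n)) (fun w => Bad w)
    have hg : (good L (n + 1)).card =
        ((ext (L n) (good L n)).filter (fun w => ¬ Bad w)).card := by
      simp only [good]
    have he : 5 * (good L n).card ≤ (ext (L n) (good L n)).card := by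
      rw [card_ext]; exact Nat.mul_le_mul_right _ h5
    rw [← hg] at hs
    rw [Finset.sum_range_succ]
    simp only [Nat.add_sub_cancel, Nat.succ_ne_zero, if_false]
    refine ⟨by omega, by omega, by omega⟩

/-- List colouring of the spine with 5 colours. -/
theorem spine_colour (n : ℕ) (L : ℕ → Finset ℕ) (hL : ∀ i, i < n → 5 ≤ (L i).card) :
    ∃ g : ℕ → ℕ, (∀ i, i < n → g i ∈ L i) ∧ NoRep g n 1 0 ∧ NoRep g n 2 0 ∧ NoRep g n 2 1 ∧
      ∀ l, 2 ≤ l → NoRep g n l 2 := by
  obtain ⟨w, hw⟩ := Finset.card_pos.1 (growth L n hL n le_rfl).2.2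
  have hlen := length_good hw
  set g : ℕ → ℕ := fun i => (w[n - 1 - i]?).getD 0 with hg
  have hk : ∀ k, k < n → w[k]? = some (g (n - 1 - k)) := by
    intro k hk
    have e : n - 1 - (n - 1 - k) = k := by omega
    simp only [hg, e]
    rw [List.getElem?_eq_getElem (by omega)]
    simp
  have key : ∀ l d, 1 ≤ l → (∀ m v, v ∈ good L (m + 1) → ¬ Pat v l d) → NoRep g n l d := by
    intro l d hl hno i hi
    by_contra hcon
    push_neg at hcon
    have hw' : w ∈ good L ((i + 2 * l + d) + (n - (i + 2 * l + d))) := by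
      have : (i + 2 * l + d) + (n - (i + 2 * l + d)) = n := by omega
      rw [this]; exact hw
    have hd := drop_good hw'
    have hd2 : w.drop (n - (i + 2 * l + d)) ∈ good L ((i + 2 * l + d - 1) + 1) := by
      have : (i + 2 * l + d - 1) + 1 = i + 2 * l + d := by omega
      rw [this]; exact hd
    refine hno _ _ hd2 ⟨?_, ?_⟩
    · rw [length_good hd]; omega
    · apply List.ext_getElem?
      intro t
      by_cases ht : t < l
      · rw [List.getElem?_take_of_lt ht, List.getElem?_take_of_lt ht, List.getElem?_drop,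
          List.getElem?_drop, List.getElem?_drop, hk _ (by omega), hk _ (by omega)]
        have := hcon (l - 1 - t) (by omega)
        have e1 : n - 1 - (n - (i + 2 * l + d) + t) = i + l + d + (l - 1 - t) := by omega
        have e2 : n - 1 - (n - (i + 2 * l + d) + (l + d + t)) = i + (l - 1 - t) := by omega
        rw [e1, e2, this]
      · rw [List.getElem?_eq_none, List.getElem?_eq_none]
        · rw [List.length_take]; omega
        · rw [List.length_take]; omega
  refine ⟨g, ?_, ?_, ?_, ?_, ?_⟩
  · intro i hi
    have hw' : w ∈ good L ((i + 1) + (n - (i + 1))) := by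
      have : (i + 1) + (n - (i + 1)) = n := by omega
      rw [this]; exact hw
    obtain ⟨⟨a, ha, v, hv, hav⟩, _⟩ := mem_good_succ.1 (drop_good hw')
    have h0 : (w.drop (n - (i + 1)))[0]? = some a := by rw [hav]; rfl
    rw [List.getElem?_drop, hk _ (by omega)] at h0
    have e : n - 1 - (n - (i + 1) + 0) = i := by omega
    rw [e] at h0
    rw [Option.some.inj h0]
    exact ha
  · exact key 1 0 le_rfl (fun m v hv h => (mem_good_succ.1 hv).2 (Or.inl h))
  · exact key 2 0 (by norm_num) (fun m v hv h => (mem_good_succ.1 hv).2 (Or.inr (Or.inl h)))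
  · exact key 2 1 (by norm_num)
      (fun m v hv h => (mem_good_succ.1 hv).2 (Or.inr (Or.inr (Or.inl h))))
  · intro l hl
    exact key l 2 (by omega)
      (fun m v hv h => (mem_good_succ.1 hv).2 (Or.inr (Or.inr (Or.inr ⟨l, hl, h⟩))))

end Pool.Agent.H54Z
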