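import Mathlib

set_option autoImplicit false

namespace Pool.Agent.H54Z

/-- `g` has no repetition of type `(l,d)` ending before `n`: no `w u w` with `|w| = l`, `|u| = d`. -/
def NoRep (g : ℕ → ℕ) (n l d : ℕ) : Prop :=
  ∀ i, i + 2 * l + d ≤ n → ∃ t, t < l ∧ g (i + t) ≠ g (i + l + d + t)

variable {V : Type}

/-- A path, as the list of its vertices (the empty list is allowed). -/
def IsP (G : SimpleGraph V) (l : List V) : Prop := l.IsChain G.Adj ∧ l.Nodup

end Pool.Agent.H54Z
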