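import Pool.Agent.Lib.H54Z.T1

set_option autoImplicit false

namespace Pool.Agent.H54Z

variable {V : Type} {G : SimpleGraph V}

private theorem T2_first (p : V → Prop) : ∀ Z : List V, (∃ z ∈ Z, p z) →
    ∃ (X : List V) (m : V) (R : List V), Z = X ++ m :: R ∧ (∀ x ∈ X, ¬ p x) ∧ p m := by
  intro Z
  induction Z with
  | nil =>
    rintro ⟨z, hz, -⟩
    exact absurd hz List.not_mem_nil
  | cons a Z ih =>
    rintro ⟨z, hz, hpz⟩
    by_cases ha : p a
    · exact ⟨[], a, Z, rfl, fun x hx => absurd hx List.not_mem_nil, ha⟩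
    · have hz' : z ∈ Z := by
        rcases List.mem_cons.1 hz with h | h
        · exact absurd (h ▸ hpz) ha
        · exact h
      obtain ⟨X, m, R, h1, h2, h3⟩ := ih ⟨z, hz', hpz⟩
      refine ⟨a :: X, m, R, by rw [h1]; rfl, fun x hx => ?_, h3⟩
      rcases List.mem_cons.1 hx with h | h
      · rw [h]; exact ha
      · exact h2 x h

/-- A path which meets the path `P` of an acyclic graph meets it in a subpath of `P`. Cut off the
longest initial and final part outside `P`; the rest `M` starts at `P[i]` and ends at `P[j]`; by `uniq` it is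
the part of `P` between them (if `i ≤ j`) or its reverse (if `j ≤ i`). -/
theorem decomp (hG : G.IsAcyclic) {P Z : List V} (hP : IsP G P) (hZ : IsP G Z)
    (h : ∃ z ∈ Z, z ∈ P) : ∃ X M Y : List V, Z = X ++ M ++ Y ∧ M ≠ [] ∧ (∀ x ∈ X, x ∉ P) ∧
      (∀ y ∈ Y, y ∉ P) ∧ (M <:+: P ∨ M.reverse <:+: P) := by
  obtain ⟨X, m, R, hZ1, hX, hm⟩ := T2_first (fun v => v ∈ P) Z h
  obtain ⟨Y', n, M', h2, hY', hn⟩ := T2_first (fun v => v ∈ P) (m :: R).reverse ⟨m, by simp, hm⟩
  have h3 : m :: R = (M'.reverse ++ [n]) ++ Y'.reverse := by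
    have h4 := congrArg List.reverse h2
    rw [List.reverse_reverse, List.reverse_append, List.reverse_cons] at h4
    exact h4
  have hM : M'.reverse ++ [n] ≠ [] := by simp
  have hZ2 : Z = X ++ (M'.reverse ++ [n]) ++ Y'.reverse := by
    rw [hZ1, h3]
    simp only [List.append_assoc]
  have hhead : (M'.reverse ++ [n]).head? = some m := by
    have h5 : ((M'.reverse ++ [n]) ++ Y'.reverse).head? = some m := by rw [← h3]; rfl
    rcases hc : (M'.reverse ++ [n]) with _ | ⟨c, C⟩
    · exact absurd hc hM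
    · rw [hc] at h5
      exact h5
  have hlast : (M'.reverse ++ [n]).getLast? = some n := List.getLast?_concat
  have hMP : IsP G (M'.reverse ++ [n]) := hZ.part ⟨X, Y'.reverse, hZ2.symm⟩
  refine ⟨X, M'.reverse ++ [n], Y'.reverse, hZ2, hM, hX, fun y hy => hY' y (List.mem_reverse.1 hy), ?_⟩
  obtain ⟨A, B, hAB⟩ := List.append_of_mem hm
  rw [hAB] at hn
  rcases List.mem_append.1 hn with hn1 | hn1
  · -- `n` before `m`
    right
    obtain ⟨A1, A2, hA⟩ := List.append_of_mem hn1
    have hinf : (n :: (A2 ++ [m])) <:+: P := by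
      refine ⟨A1, B, ?_⟩
      rw [hAB, hA]
      simp
    have h5 := uniq hG hMP.reverse (hP.part hinf) (by rw [List.head?_reverse, hlast]; rfl) (by
      rw [List.getLast?_reverse, hhead]
      rw [← List.cons_append, List.getLast?_concat])
    rw [h5]
    exact hinf
  · left
    rcases List.mem_cons.1 hn1 with hn2 | hn2
    · have hinf : [m] <:+: P := ⟨A, B, by rw [hAB]; simp⟩
      have h5 := uniq hG hMP (hP.part hinf) (by rw [hhead]; rfl) (by rw [hlast, hn2]; rfl)
      rw [h5]
      exact hinf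
    · obtain ⟨B1, B2, hB⟩ := List.append_of_mem hn2
      have hinf : (m :: (B1 ++ [n])) <:+: P := by
        refine ⟨A, B2, ?_⟩
        rw [hAB, hB]
        simp
      have h5 := uniq hG hMP (hP.part hinf) (by rw [hhead]; rfl) (by
        rw [hlast]
        rw [← List.cons_append, List.getLast?_concat])
      rw [h5]
      exact hinf

end Pool.Agent.H54Z
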