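import Pool.Agent.Lib.H54Z.T1

set_option autoImplicit false

namespace Pool.Agent.H54Z

variable {V : Type} {G : SimpleGraph V}

private theorem attach_lt (hG : G.IsAcyclic) {P l : List V} (hP : IsP G P) (hl : IsP G l)
    (hd : ∀ x ∈ l, x ∉ P) {x y : V} (hx : l.head? = some x) (hy : l.getLast? = some y)
    {i j : ℕ} (hi : i < P.length) (hj : j < P.length) (h1 : G.Adj x P[i]) (h2 : G.Adj y P[j]) :
    ¬ i < j := by
  intro hij
  have hne : l ≠ [] := by rintro rfl; simp at hx
  have hxl : x ∈ l := List.mem_of_head? hx
  -- the part of `P`
  set Q := (P.drop i).take (j - i + 1) with hQ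
  have hQP : Q <:+: P := (List.take_prefix _ _).isInfix.trans (List.drop_suffix _ _).isInfix
  have hQpath : IsP G Q := hP.part hQP
  have hQlen : Q.length = j - i + 1 := by
    rw [hQ, List.length_take, List.length_drop]; omega
  have hQhead : Q.head? = some P[i] := by
    rw [List.head?_eq_getElem?, hQ, List.getElem?_take_of_lt (by omega), List.getElem?_drop,
      List.getElem?_eq_getElem (by omega)]
    rfl
  have hQlast : Q.getLast? = some P[j] := by
    rw [List.getLast?_eq_getElem?, hQlen, hQ, List.getElem?_take_of_lt (by omega),
      List.getElem?_drop, List.getElem?_eq_getElem (by omega)]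
    congr 2
    omega
  have hR : IsP G (P[i] :: (l ++ [P[j]])) := by
    constructor
    · rw [List.isChain_cons, List.isChain_append]
      refine ⟨?_, hl.1, List.isChain_singleton _, ?_⟩
      · intro z hz
        rw [List.head?_append_of_ne_nil _ hne, hx] at hz
        obtain rfl := Option.some.inj hz
        exact h1.symm
      · intro z hz z' hz'
        rw [hy] at hz
        obtain rfl := Option.some.inj hz
        simp only [List.head?_cons] at hz'
        obtain rfl := Option.some.inj hz'
        exact h2
    · rw [List.nodup_cons, List.nodup_append]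
      refine ⟨?_, hl.2, List.nodup_singleton _, ?_⟩
      · intro hmem
        rw [List.mem_append, List.mem_singleton] at hmem
        rcases hmem with hmem | hmem
        · exact hd _ hmem (List.getElem_mem _)
        · have := (hP.2.getElem_inj_iff).1 hmem
          omega
      · intro a ha b hb
        rw [List.mem_singleton] at hb
        subst hb
        rintro rfl
        exact hd _ ha (List.getElem_mem _)
  have hlast : (P[i] :: (l ++ [P[j]])).getLast? = some P[j] := by
    rw [List.getLast?_cons, List.getLast?_append]
    simp
  have := uniq hG hR hQpath (by rw [hQhead]; rfl) (by rw [hlast, hQlast])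
  have hxR : x ∈ (P[i] :: (l ++ [P[j]])) := by simp [hxl]
  rw [this] at hxR
  exact hd x hxl (hQP.subset hxR)

/-- Two attaching edges of a path outside `P` go to the same vertex of `P`: otherwise
`P[i] :: l ++ [P[j]]` and the part of `P` between `P[i]` and `P[j]` are two different paths. -/
theorem attach_unique (hG : G.IsAcyclic) {P l : List V} (hP : IsP G P) (hl : IsP G l)
    (hd : ∀ x ∈ l, x ∉ P) {x y : V} (hx : l.head? = some x) (hy : l.getLast? = some y)
    {i j : ℕ} (hi : i < P.length) (hj : j < P.length) (h1 : G.Adj x P[i]) (h2 : G.Adj y P[j]) :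
    i = j := by
  have a := attach_lt hG hP hl hd hx hy hi hj h1 h2
  have b := attach_lt hG hP hl.reverse (fun z hz => hd z (List.mem_reverse.1 hz))
    (by rw [List.head?_reverse]; exact hy) (by rw [List.getLast?_reverse]; exact hx) hj hi h2 h1
  omega

/-- In a caterpillar two vertices outside the spine are not adjacent. -/
theorem leaves_not_adj (hG : G.IsAcyclic) {P : List V} (hP : IsP G P)
    (hcat : ∀ v, v ∈ P ∨ ∃ u ∈ P, G.Adj v u) {x y : V} (hx : x ∉ P) (hy : y ∉ P) :
    ¬ G.Adj x y := by
  intro hadj
  rcases hcat x with h | ⟨u, hu, hxu⟩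
  · exact hx h
  rcases hcat y with h | ⟨v, hv, hyv⟩
  · exact hy h
  obtain ⟨i, hi, rfl⟩ := List.mem_iff_getElem.1 hu
  obtain ⟨j, hj, rfl⟩ := List.mem_iff_getElem.1 hv
  have hxy : IsP G [x, y] := by
    constructor
    · simp [hadj]
    · simp [hadj.ne]
  have hij : i = j := attach_unique hG hP hxy (by
    intro z hz
    simp only [List.mem_cons, List.not_mem_nil, or_false] at hz
    rcases hz with rfl | rfl
    · exact hx
    · exact hy) (x := x) (y := y) rfl rfl hi hj hxu hyv
  subst hij
  have hxPy : IsP G [x, P[i], y] := by
    constructor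
    · simp [hxu, hyv.symm]
    · simp only [List.nodup_cons, List.mem_cons, List.not_mem_nil, or_false, not_false_eq_true,
        List.nodup_nil, and_true, not_or]
      exact ⟨⟨hxu.ne, hadj.ne⟩, hyv.symm.ne⟩
  have := uniq hG hxy hxPy rfl rfl
  simp at this

end Pool.Agent.H54Z
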