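import Pool.Agent.Lib.H54Z.C1
import Pool.Agent.Lib.H54Z.T2
import Pool.Agent.Lib.H54Z.T3

set_option autoImplicit false

namespace Pool.Agent.H54Z

theorem NR {g : ℕ → ℕ} {n : ℕ} (h10 : NoRep g n 1 0) (h20 : NoRep g n 2 0) (h21 : NoRep g n 2 1)
    (h2 : ∀ l, 2 ≤ l → NoRep g n l 2) (j m t : ℕ)
    (hm : (t = 1 ∧ 1 ≤ m) ∨ (t = 2 ∧ 2 ≤ m) ∨ (t = 3 ∧ 2 ≤ m) ∨ (4 ≤ t ∧ t - 2 ≤ m))
    (hjm : j + m + t ≤ n) (heq : ∀ u, u < m → g (j + u) = g (j + t + u)) : False := by
  have key : ∀ l d, l + d = t → l ≤ m → NoRep g n l d → False := by
    intro l d hld hlm hno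
    obtain ⟨u, hu, hne⟩ := hno j (by omega)
    apply hne
    rw [heq u (by omega)]
    congr 1
    omega
  rcases hm with ⟨h, h'⟩ | ⟨h, h'⟩ | ⟨h, h'⟩ | ⟨h, h'⟩
  · exact key 1 0 (by omega) h' h10
  · exact key 2 0 (by omega) h' h20
  · exact key 2 1 (by omega) h' h21
  · exact key (t - 2) 2 (by omega) h' (h2 _ (by omega))

theorem sq_get {a : List ℕ} {w : List ℕ} (h : w = a ++ a) (e : ℕ) (he : e < a.length) :
    w[e]? = w[e + a.length]? := by
  subst h
  rw [List.getElem?_append_left he, List.getElem?_append_right (by omega)]
  simp

/-- the word lemma for caterpillars -/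
theorem word_core {g : ℕ → ℕ} {n : ℕ} (h10 : NoRep g n 1 0) (h20 : NoRep g n 2 0)
    (h21 : NoRep g n 2 1) (h2 : ∀ l, 2 ≤ l → NoRep g n l 2) (i p : ℕ) (hp : 1 ≤ p)
    (hip : i + p ≤ n) (xs ys : List ℕ) (hx1 : xs.length ≤ 1) (hy1 : ys.length ≤ 1)
    (hx : ∀ x ∈ xs, x ≠ g i ∧ x ≠ g (i + 1) ∧ x ≠ g (i + 2))
    (hy : ∀ y ∈ ys, y ≠ g (i + p - 1) ∧ y ≠ g (i + p - 2))
    (a : List ℕ) (ha : a ≠ []) :
    xs ++ (List.range p).map (fun u => g (i + u)) ++ ys ≠ a ++ a := by
  intro h
  have hlen := congrArg List.length h
  simp only [List.length_append, List.length_map, List.length_range] at hlen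
  have ht : 1 ≤ a.length := by
    rcases a with _ | ⟨b, a⟩
    · exact absurd rfl ha
    · simp
  set t := a.length with htdef
  have hget : ∀ e, e < t → (xs ++ (List.range p).map (fun u => g (i + u)) ++ ys)[e]? =
      (xs ++ (List.range p).map (fun u => g (i + u)) ++ ys)[e + t]? := fun e he => sq_get h e he
  -- letters in the middle part
  have hmid : ∀ e, xs.length ≤ e → e < xs.length + p →
      (xs ++ (List.range p).map (fun u => g (i + u)) ++ ys)[e]? = some (g (i + (e - xs.length))) := by
    intro e h1 h2
    rw [List.getElem?_append_left (by simp; omega), List.getElem?_append_right h1,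
      List.getElem?_map, List.getElem?_range (by omega)]
    rfl
  rcases xs with _ | ⟨x, xs⟩
  · rcases ys with _ | ⟨y, ys⟩
    · -- no leaves
      simp only [List.length_nil] at hlen hmid
      refine NR h10 h20 h21 h2 i t t (by omega) (by omega) ?_
      intro u hu
      have := hget u hu
      rw [hmid u (by omega) (by omega), hmid (u + t) (by omega) (by omega)] at this
      have := Option.some.inj this
      simp only [Nat.sub_zero] at this
      rw [this]
      congr 1
      omega
    · -- leaf at the end
      obtain rfl : ys = [] := by
        rcases ys with _ | ⟨z, ys⟩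
        · rfl
        · simp at hy1
      simp only [List.length_nil, List.length_cons] at hlen hmid
      have hlast : (([] : List ℕ) ++ (List.range p).map (fun u => g (i + u)) ++ [y])[p]? =
          some y := by
        rw [List.getElem?_append_right (by simp)]
        simp
      have hyy := hy y (by simp)
      have h0 := hget (t - 1) (by omega)
      have e1 : t - 1 + t = p := by omega
      rw [e1, hlast, hmid (t - 1) (by omega) (by omega)] at h0
      have h0 := Option.some.inj h0
      simp only [Nat.sub_zero] at h0
      by_cases h1 : t = 1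
      · apply hyy.1
        rw [← h0]
        congr 1
        omega
      by_cases h22 : t = 2
      · apply hyy.2
        rw [← h0]
        congr 1
        omega
      refine NR h10 h20 h21 h2 i (t - 1) t (by omega) (by omega) ?_
      intro u hu
      have := hget u (by omega)
      rw [hmid u (by omega) (by omega), hmid (u + t) (by omega) (by omega)] at this
      have := Option.some.inj this
      simp only [Nat.sub_zero] at this
      rw [this]
      congr 1
      omega
  · obtain rfl : xs = [] := by
      rcases xs with _ | ⟨z, xs⟩
      · rfl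
      · simp at hx1
    have hxx := hx x (by simp)
    rcases ys with _ | ⟨y, ys⟩
    · -- leaf at the beginning
      simp only [List.length_nil, List.length_cons] at hlen hmid
      have h0 := hget 0 (by omega)
      rw [hmid (0 + t) (by omega) (by omega)] at h0
      simp only [List.cons_append, List.getElem?_cons_zero] at h0
      have h0 := Option.some.inj h0
      by_cases h1 : t = 1
      · apply hxx.1
        rw [h0]
        congr 1
        omega
      by_cases h22 : t = 2
      · apply hxx.2.1
        rw [h0]
        congr 1
        omega
      refine NR h10 h20 h21 h2 i (t - 1) t (by omega) (by omega) ?_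
      intro u hu
      have := hget (u + 1) (by omega)
      rw [hmid (u + 1) (by omega) (by omega), hmid (u + 1 + t) (by omega) (by omega)] at this
      have := Option.some.inj this
      have e1 : i + (u + 1 - (0 + 1)) = i + u := by omega
      have e2 : i + (u + 1 + t - (0 + 1)) = i + t + u := by omega
      rw [e1, e2] at this
      exact this
    · -- leaves at both ends
      obtain rfl : ys = [] := by
        rcases ys with _ | ⟨z, ys⟩
        · rfl
        · simp at hy1
      simp only [List.length_nil, List.length_cons] at hlen hmid
      have h0 := hget 0 (by omega)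
      rw [hmid (0 + t) (by omega) (by omega)] at h0
      simp only [List.cons_append, List.getElem?_cons_zero] at h0
      have h0 := Option.some.inj h0
      by_cases h1 : t = 2
      · apply hxx.2.1
        rw [h0]
        congr 1
        omega
      by_cases h22 : t = 3
      · apply hxx.2.2
        rw [h0]
        congr 1
        omega
      refine NR h10 h20 h21 h2 i (t - 2) t (by omega) (by omega) ?_
      intro u hu
      have := hget (u + 1) (by omega)
      rw [hmid (u + 1) (by omega) (by omega), hmid (u + 1 + t) (by omega) (by omega)] at this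
      have := Option.some.inj this
      have e1 : i + (u + 1 - (0 + 1)) = i + u := by omega
      have e2 : i + (u + 1 + t - (0 + 1)) = i + t + u := by omega
      rw [e1, e2] at this
      exact this

end Pool.Agent.H54Z
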