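import Mathlib

/-!
# A caterpillar without a nonrepetitive colouring with three colours

The comb with eight vertices on the spine and one leaf at each of them.
-/

set_option autoImplicit false

namespace Pool.Agent.H54Z.Low

/-- The edges of the comb: the spine is `0, 1, 3, 5, 7, 9, 11, 13`, the leaves at these vertices
are `2, 4, 6, 8, 10, 12, 14, 15`. -/
def E : List (ℕ × ℕ) :=
  [(0, 1), (0, 2), (1, 3), (1, 4), (3, 5), (3, 6), (5, 7), (5, 8), (7, 9), (7, 10), (9, 11),
    (9, 12), (11, 13), (11, 14), (13, 15)]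

/-- Adjacency in the comb. -/
def adjb (a b : ℕ) : Bool := E.contains (a, b) || E.contains (b, a)

/-- The paths of the comb with 2, 4 or 6 vertices. -/
def paths : List (List ℕ) := [
  [0, 1], [0, 2], [1, 3], [2, 0, 1, 3], [1, 4], [2, 0, 1, 4], [3, 5], [0, 1, 3, 5], [4, 1, 3, 5],
  [3, 6], [0, 1, 3, 6], [4, 1, 3, 6], [5, 7], [1, 3, 5, 7], [6, 3, 5, 7], [2, 0, 1, 3, 5, 7],
  [5, 8], [1, 3, 5, 8], [6, 3, 5, 8], [2, 0, 1, 3, 5, 8], [7, 9], [3, 5, 7, 9], [8, 5, 7, 9],
  [0, 1, 3, 5, 7, 9], [4, 1, 3, 5, 7, 9], [7, 10], [3, 5, 7, 10], [8, 5, 7, 10],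
  [0, 1, 3, 5, 7, 10], [4, 1, 3, 5, 7, 10], [9, 11], [5, 7, 9, 11], [10, 7, 9, 11],
  [1, 3, 5, 7, 9, 11], [6, 3, 5, 7, 9, 11], [9, 12], [5, 7, 9, 12], [10, 7, 9, 12],
  [1, 3, 5, 7, 9, 12], [6, 3, 5, 7, 9, 12], [11, 13], [7, 9, 11, 13], [12, 9, 11, 13],
  [3, 5, 7, 9, 11, 13], [8, 5, 7, 9, 11, 13], [11, 14], [7, 9, 11, 14], [12, 9, 11, 14],
  [3, 5, 7, 9, 11, 14], [8, 5, 7, 9, 11, 14], [13, 15], [9, 11, 13, 15], [14, 11, 13, 15],
  [5, 7, 9, 11, 13, 15], [10, 7, 9, 11, 13, 15]]

/-- The colouring `w` is repetitive on the path `l`. -/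
def rep (w l : List ℕ) : Bool :=
  (List.range (l.length / 2)).all fun i =>
    w.getD (l.getD i 0) 9 == w.getD (l.getD (i + l.length / 2) 0) 9

/-- The colouring `w` of the first vertices is repetitive on one of the paths. -/
def bad (w : List ℕ) : Bool :=
  paths.any fun l => (l.all fun j => decide (j < w.length)) && rep w l

/-- Backtracking. -/
def dfs : ℕ → List ℕ → Bool
  | 0, w => bad w
  | n + 1, w => bad w || (dfs n (w ++ [0]) && (dfs n (w ++ [1]) && dfs n (w ++ [2])))

theorem search : dfs 16 [] = true := by decide +kernel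

theorem bad_sound {w c : List ℕ} (hw : w <+: c) (h : bad w = true) :
    ∃ l ∈ paths, rep c l = true := by
  unfold bad at h
  rw [List.any_eq_true] at h
  obtain ⟨l, hl, h⟩ := h
  rw [Bool.and_eq_true, List.all_eq_true] at h
  refine ⟨l, hl, ?_⟩
  have hget : ∀ j ∈ l, c.getD j 9 = w.getD j 9 := by
    intro j hj
    have hjw : j < w.length := by simpa using h.1 j hj
    obtain ⟨r, rfl⟩ := hw
    rw [List.getD_append _ _ _ _ hjw]
  have h2 := h.2
  unfold rep at h2 ⊢
  rw [List.all_eq_true] at h2 ⊢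
  intro i hi
  have hi' : i < l.length / 2 := by simpa using hi
  have e1 : l.getD i 0 ∈ l := by
    rw [List.getD_eq_getElem _ _ (by omega)]
    exact List.getElem_mem _
  have e2 : l.getD (i + l.length / 2) 0 ∈ l := by
    rw [List.getD_eq_getElem _ _ (by omega)]
    exact List.getElem_mem _
  rw [hget _ e1, hget _ e2]
  exact h2 i hi

theorem dfs_sound : ∀ (n : ℕ) (w : List ℕ), dfs n w = true → ∀ c : List ℕ,
    c.length = w.length + n → w <+: c → (∀ x ∈ c, x < 3) → ∃ l ∈ paths, rep c l = true := by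
  intro n
  induction n with
  | zero =>
    intro w h c _ hw _
    exact bad_sound hw h
  | succ n ih =>
    intro w h c hc hw h3
    unfold dfs at h
    rw [Bool.or_eq_true, Bool.and_eq_true, Bool.and_eq_true] at h
    rcases h with h | ⟨h0, h1, h2⟩
    · exact bad_sound hw h
    · obtain ⟨r, rfl⟩ := hw
      rcases r with _ | ⟨x, r⟩
      · simp at hc
      · have hx : x < 3 := h3 x (by simp)
        have hx' : x = 0 ∨ x = 1 ∨ x = 2 := by omega
        rcases hx' with rfl | rfl | rfl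
        · exact ih _ h0 _ (by simp at hc ⊢; omega) ⟨r, by simp⟩ h3
        · exact ih _ h1 _ (by simp at hc ⊢; omega) ⟨r, by simp⟩ h3
        · exact ih _ h2 _ (by simp at hc ⊢; omega) ⟨r, by simp⟩ h3

/-- The comb. -/
def G : SimpleGraph (Fin 16) where
  Adj u v := adjb u v = true
  symm := ⟨by
    intro u v h
    unfold adjb at h ⊢
    rw [Bool.or_comm]
    exact h⟩
  loopless := ⟨by decide⟩

instance : DecidableRel G.Adj := fun u v => inferInstanceAs (Decidable (adjb u v = true))

theorem paths_ok : ∀ l ∈ paths, (l.map (Fin.ofNat 16)).IsChain G.Adj ∧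
    (l.map (Fin.ofNat 16)).Nodup ∧ (∀ j ∈ l, j < 16) ∧ l.length = 2 * (l.length / 2) ∧
    1 ≤ l.length / 2 := by
  decide +kernel

theorem exists_rep (f : Fin 16 → ℕ) (hf : ∀ v, f v < 3) :
    ∃ l : List (Fin 16), l.IsChain G.Adj ∧ l.Nodup ∧ ∃ k, 1 ≤ k ∧ l.length = 2 * k ∧
      ∀ i (h : i < k) (h1 : i < l.length) (h2 : i + k < l.length), f l[i] = f l[i + k] := by
  obtain ⟨l, hl, hr⟩ := dfs_sound 16 [] search (List.ofFn f) (by simp) (List.nil_prefix)
    (by
      intro x hx
      rw [List.mem_ofFn] at hx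
      obtain ⟨v, rfl⟩ := hx
      exact hf v)
  obtain ⟨h1, h2, h3, h4, h5⟩ := paths_ok l hl
  refine ⟨l.map (Fin.ofNat 16), h1, h2, l.length / 2, h5, by simpa using h4, ?_⟩
  intro i hi hi1 hi2
  rw [List.length_map] at hi1 hi2
  unfold rep at hr
  rw [List.all_eq_true] at hr
  have h := hr i (by simpa using hi)
  rw [beq_iff_eq, List.getD_eq_getElem _ _ hi1, List.getD_eq_getElem _ _ hi2] at h
  have hget : ∀ j, j < 16 → (List.ofFn f).getD j 9 = f (Fin.ofNat 16 j) := by
    intro j hj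
    rw [List.getD_eq_getElem _ _ (by simpa using hj), List.getElem_ofFn]
    congr 1
    apply Fin.ext
    simp [Fin.ofNat, Nat.mod_eq_of_lt hj]
  rw [hget _ (h3 _ (List.getElem_mem _)), hget _ (h3 _ (List.getElem_mem _))] at h
  rw [List.getElem_map, List.getElem_map]
  exact h

theorem walk_of_chain {V : Type} {G : SimpleGraph V} : ∀ l : List V, l ≠ [] → l.IsChain G.Adj →
    ∃ (a b : V) (p : G.Walk a b), p.support = l := by
  intro l
  induction l with
  | nil => intro h; exact absurd rfl h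
  | cons a l ih =>
    intro _ h
    rcases l with _ | ⟨b, l⟩
    · exact ⟨a, a, SimpleGraph.Walk.nil, by simp⟩
    · rw [List.isChain_cons_cons] at h
      obtain ⟨x, y, p, hp⟩ := ih (by simp) h.2
      have hx : x = b := by
        have := p.cons_tail_support
        rw [hp] at this
        exact (List.cons.inj this).1
      subst hx
      exact ⟨a, y, SimpleGraph.Walk.cons h.1 p, by simp [hp]⟩

theorem connected : G.Connected := by
  have hpar : ∀ v : Fin 16, v ≠ 0 → ∃ u : Fin 16, u < v ∧ G.Adj u v := by decide +kernel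
  have h : ∀ n, ∀ h : n < 16, G.Reachable 0 ⟨n, h⟩ := by
    intro n
    induction n using Nat.strong_induction_on with
    | _ n ih =>
      intro hn
      by_cases h0 : n = 0
      · subst h0
        exact SimpleGraph.Reachable.refl _
      · obtain ⟨u, hu, hadj⟩ := hpar ⟨n, hn⟩ (by
          intro h
          exact h0 (congrArg Fin.val h))
        exact (ih u.1 hu u.2).trans hadj.reachable
  rw [SimpleGraph.connected_iff_exists_forall_reachable]
  exact ⟨0, fun v => h v.1 v.2⟩

theorem isTree : G.IsTree := by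
  rw [SimpleGraph.isTree_iff_connected_and_card]
  refine ⟨connected, ?_⟩
  have h : G.edgeFinset.card = 15 := by decide +kernel
  rw [Nat.card_eq_fintype_card, SimpleGraph.card_edgeSet, h]
  simp

theorem spine : ∃ (a b : Fin 16) (P : G.Walk a b), P.IsPath ∧
    ∀ v : Fin 16, v ∈ P.support ∨ ∃ u ∈ P.support, G.Adj v u := by
  have hc : ([0, 1, 3, 5, 7, 9, 11, 13] : List (Fin 16)).IsChain G.Adj := by decide +kernel
  obtain ⟨a, b, p, hp⟩ := walk_of_chain _ (by simp) hc
  refine ⟨a, b, p, ?_, ?_⟩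
  · rw [SimpleGraph.Walk.isPath_def, hp]
    decide +kernel
  · rw [hp]
    decide +kernel

/-- The comb has no nonrepetitive colouring with the colours 0, 1, 2. -/
theorem not_three (f : Fin 16 → ℕ) (hf : ∀ v, f v < 3) :
    ∃ (u w : Fin 16) (p : G.Walk u w), p.IsPath ∧ ∃ k : ℕ, 1 ≤ k ∧ p.length + 1 = 2 * k ∧
      ∀ i : ℕ, i < k → f (p.getVert i) = f (p.getVert (i + k)) := by
  obtain ⟨l, h1, h2, k, hk, hlen, h⟩ := exists_rep f hf
  obtain ⟨a, b, p, hp⟩ := walk_of_chain l (by rintro rfl; simp at hlen; omega) h1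
  have hl : p.length + 1 = 2 * k := by rw [← p.length_support, hp, hlen]
  refine ⟨a, b, p, ?_, k, hk, hl, ?_⟩
  · rw [SimpleGraph.Walk.isPath_def, hp]
    exact h2
  · intro i hi
    rw [p.getVert_eq_support_getElem (by omega), p.getVert_eq_support_getElem (by omega)]
    simp only [hp]
    exact h i hi (by omega) (by omega)

end Pool.Agent.H54Z.Low
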