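import Pool.Agent.Lib.H54Z.F

set_option autoImplicit false

namespace Pool.Agent.H54Z

variable {V : Type} {G : SimpleGraph V}

theorem core (hG : G.IsAcyclic) {P : List V} (hP : IsP G P)
    (hcat : ∀ v, v ∈ P ∨ ∃ u ∈ P, G.Adj v u) {f : V → ℕ} {g : ℕ → ℕ}
    (h10 : NoRep g P.length 1 0) (h20 : NoRep g P.length 2 0) (h21 : NoRep g P.length 2 1)
    (h2 : ∀ l, 2 ≤ l → NoRep g P.length l 2)
    (hfP : ∀ i (hi : i < P.length), f P[i] = g i)
    (hfL : ∀ v, v ∉ P → ∀ i (hi : i < P.length), G.Adj v P[i] →
      f v ≠ g (i - 1) ∧ f v ≠ g i ∧ f v ≠ g (i + 1) ∧ f v ≠ g (i + 2))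
    {X M Y : List V} (hZ : IsP G (X ++ M ++ Y)) (hM : M ≠ []) (hX : ∀ x ∈ X, x ∉ P)
    (hY : ∀ y ∈ Y, y ∉ P) (hMP : M <:+: P) (a : List ℕ) (ha : a ≠ []) :
    (X ++ M ++ Y).map f ≠ a ++ a := by
  obtain ⟨A, C, rfl⟩ := hMP
  have hplen : (A ++ M ++ C).length = A.length + M.length + C.length := by
    simp; omega
  have hMlen : 1 ≤ M.length := List.length_pos_iff.2 hM
  have hget : ∀ u (hu : u < M.length) (hu' : A.length + u < (A ++ M ++ C).length),
      (A ++ M ++ C)[A.length + u] = M[u] := by
    intro u hu hu'
    rw [List.getElem_append_left (by simp; omega), List.getElem_append_right (by omega)]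
    simp
  have hMmap : M.map f = (List.range M.length).map (fun u => g (A.length + u)) := by
    apply List.ext_getElem
    · simp
    · intro u h1 h2
      rw [List.length_map] at h1
      rw [List.getElem_map, List.getElem_map, List.getElem_range, ← hget u h1 (by simp; omega),
        hfP]
  have hXY : ∀ (Z : List V), IsP G Z → (∀ z ∈ Z, z ∉ A ++ M ++ C) → Z.length ≤ 1 := by
    intro Z hZ hn
    rcases Z with _ | ⟨x, _ | ⟨y, Z⟩⟩
    · simp
    · simp
    · exfalso
      have h := hZ.1
      rw [List.isChain_cons_cons] at h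
      exact leaves_not_adj hG hP hcat (hn x (by simp)) (hn y (by simp)) h.1
  have hX1 : X.length ≤ 1 := hXY X (hZ.part ⟨[], M ++ Y, by simp⟩) hX
  have hY1 : Y.length ≤ 1 := hXY Y (hZ.part ⟨X ++ M, [], by simp⟩) hY
  rw [List.map_append, List.map_append, hMmap]
  refine word_core h10 h20 h21 h2 A.length M.length hMlen (by omega) (X.map f) (Y.map f)
    (by simpa using hX1) (by simpa using hY1) ?_ ?_ a ha
  · intro c hc
    rcases X with _ | ⟨x, X'⟩
    · simp at hc
    · obtain rfl : X' = [] := by
        rcases X' with _ | ⟨z, X'⟩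
        · rfl
        · simp at hX1
      simp only [List.map_cons, List.map_nil, List.mem_singleton] at hc
      subst hc
      rcases M with _ | ⟨m, M'⟩
      · exact absurd rfl hM
      · have h := hZ.1
        simp only [List.cons_append, List.nil_append] at h
        rw [List.isChain_cons_cons] at h
        have hg := hget 0 (by simp) (by simp)
        have := hfL x (hX x (by simp)) (A.length + 0) (by simp) (by rw [hg]; exact h.1)
        exact ⟨this.2.1, this.2.2.1, this.2.2.2⟩
  · intro c hc
    rcases Y with _ | ⟨y, Y'⟩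
    · simp at hc
    · obtain rfl : Y' = [] := by
        rcases Y' with _ | ⟨z, Y'⟩
        · rfl
        · simp at hY1
      simp only [List.map_cons, List.map_nil, List.mem_singleton] at hc
      subst hc
      have h := hZ.1
      rw [List.isChain_append] at h
      have hl : (X ++ M).getLast? = some M[M.length - 1] := by
        rw [List.getLast?_append_of_ne_nil _ hM, List.getLast?_eq_getElem?,
          List.getElem?_eq_getElem (by omega)]
      have hadj := h.2.2 M[M.length - 1] (by rw [hl]; simp) y (by simp)
      have hg := hget (M.length - 1) (by omega) (by simp; omega)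
      have := hfL y (hY y (by simp)) (A.length + (M.length - 1)) (by simp; omega)
        (by rw [hg]; exact hadj.symm)
      have e1 : A.length + M.length - 1 = A.length + (M.length - 1) := by omega
      have e2 : A.length + M.length - 2 = A.length + (M.length - 1) - 1 := by omega
      rw [e1, e2]
      exact ⟨this.2.1, this.1⟩

theorem caterpillar (hG : G.IsAcyclic) {P : List V} (hP : IsP G P)
    (hcat : ∀ v, v ∈ P ∨ ∃ u ∈ P, G.Adj v u) (L : V → Finset ℕ) (hL : ∀ v, 5 ≤ (L v).card) :
    ∃ f : V → ℕ, (∀ v, f v ∈ L v) ∧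
      ∀ l : List V, IsP G l → ∀ a : List ℕ, a ≠ [] → l.map f ≠ a ++ a := by
  classical
  obtain ⟨g, hg, h10, h20, h21, h2⟩ := spine_colour P.length
    (fun i => if h : i < P.length then L P[i] else ∅) (by
      intro i hi
      simp only [hi, dif_pos]
      exact hL _)
  have hidx : ∀ v, v ∉ P → ∃ i, ∃ (hi : i < P.length), G.Adj v P[i] := by
    intro v hv
    rcases hcat v with h | ⟨u, hu, hadj⟩
    · exact absurd h hv
    · obtain ⟨i, hi, rfl⟩ := List.mem_iff_getElem.1 hu
      exact ⟨i, hi, hadj⟩
  have hcol : ∀ v, ∃ c ∈ L v, v ∉ P → ∀ i (hi : i < P.length), G.Adj v P[i] →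
      c ≠ g (i - 1) ∧ c ≠ g i ∧ c ≠ g (i + 1) ∧ c ≠ g (i + 2) := by
    intro v
    by_cases hv : v ∈ P
    · obtain ⟨c, hc⟩ := Finset.card_pos.1 (lt_of_lt_of_le (by norm_num) (hL v))
      exact ⟨c, hc, fun h => absurd hv h⟩
    · obtain ⟨i, hi, hadj⟩ := hidx v hv
      have hcard : ({g (i - 1), g i, g (i + 1), g (i + 2)} : Finset ℕ).card < (L v).card :=
        lt_of_le_of_lt Finset.card_le_four (lt_of_lt_of_le (by norm_num) (hL v))
      obtain ⟨c, hc, hcn⟩ := Finset.exists_mem_notMem_of_card_lt_card hcard
      refine ⟨c, hc, fun _ j hj hadj' => ?_⟩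
      have hij : i = j := attach_unique hG hP (l := [v]) ⟨by simp, by simp⟩
        (by simpa using hv) (x := v) (y := v) (by simp) (by simp) hi hj hadj hadj'
      subst hij
      simp only [Finset.mem_insert, Finset.mem_singleton, not_or] at hcn
      exact ⟨hcn.1, hcn.2.1, hcn.2.2.1, hcn.2.2.2⟩
  choose c hc hc' using hcol
  set f : V → ℕ := fun v => if v ∈ P then g (P.idxOf v) else c v with hf
  have hfP : ∀ i (hi : i < P.length), f P[i] = g i := by
    intro i hi
    simp only [hf, List.getElem_mem, if_true]
    rw [hP.2.idxOf_getElem]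
  have hfL : ∀ v, v ∉ P → ∀ i (hi : i < P.length), G.Adj v P[i] →
      f v ≠ g (i - 1) ∧ f v ≠ g i ∧ f v ≠ g (i + 1) ∧ f v ≠ g (i + 2) := by
    intro v hv i hi hadj
    simp only [hf, hv, if_false]
    exact hc' v hv i hi hadj
  refine ⟨f, ?_, ?_⟩
  · intro v
    by_cases hv : v ∈ P
    · obtain ⟨i, hi, rfl⟩ := List.mem_iff_getElem.1 hv
      rw [hfP]
      have := hg i hi
      simpa only [hi, dif_pos] using this
    · simp only [hf, hv, if_false]
      exact hc v
  · intro l hl a ha he
    by_cases hmeet : ∃ z ∈ l, z ∈ P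
    · obtain ⟨X, M, Y, rfl, hM, hX, hY, hMP⟩ := decomp hG hP hl hmeet
      rcases hMP with hMP | hMP
      · exact core hG hP hcat h10 h20 h21 h2 hfP hfL hl hM hX hY hMP a ha he
      · have hrev : IsP G (Y.reverse ++ M.reverse ++ X.reverse) := by
          have := hl.reverse
          rwa [List.reverse_append, List.reverse_append, ← List.append_assoc] at this
        refine core hG hP hcat h10 h20 h21 h2 hfP hfL hrev (by simpa using hM)
          (fun y hy => hY y (by simpa using hy)) (fun x hx => hX x (by simpa using hx)) hMP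
          a.reverse (by simpa using ha) ?_
        have := congrArg List.reverse he
        rw [List.reverse_append, ← List.map_reverse, List.reverse_append, List.reverse_append,
          ← List.append_assoc] at this
        exact this
    · push_neg at hmeet
      have hlen := congrArg List.length he
      rw [List.length_map, List.length_append] at hlen
      have hapos : 1 ≤ a.length := List.length_pos_iff.2 ha
      rcases l with _ | ⟨x, _ | ⟨y, l⟩⟩
      · simp at hlen; omega
      · simp at hlen; omega
      · have h := hl.1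
        rw [List.isChain_cons_cons] at h
        exact leaves_not_adj hG hP hcat (hmeet x (by simp)) (hmeet y (by simp)) h.1

end Pool.Agent.H54Z
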