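import Pool.Agent.Lib.H54Z.V4
import Pool.Agent.Lib.H54Z.T2
import Pool.Agent.Lib.H54Z.T3

/-!
# Every caterpillar is nonrepetitively 4-choosable: the graph part

The spine `P` is coloured by the positions `6, …, P.length + 5` of a word of length
`P.length + 13`; the six positions in front and the seven positions behind only serve to make the
rule for the leaves uniform.
-/

set_option autoImplicit false

namespace Pool.Agent.H54Z.Four

variable {V : Type} {G : SimpleGraph V}

theorem core (hG : G.IsAcyclic) {P : List V} (hP : IsP G P)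
    (hcat : ∀ v, v ∈ P ∨ ∃ u ∈ P, G.Adj v u) {f : V → ℕ} {g : ℕ → ℕ}
    (hg : Av g (P.length + 13))
    (hfP : ∀ i (hi : i < P.length), f P[i] = g (i + 6))
    (hfL : ∀ v, v ∉ P → ∀ i (hi : i < P.length), G.Adj v P[i] → Leaf g (i + 6) (f v))
    {X M Y : List V} (hZ : IsP G (X ++ M ++ Y)) (hM : M ≠ []) (hX : ∀ x ∈ X, x ∉ P)
    (hY : ∀ y ∈ Y, y ∉ P) (hMP : M <:+: P) (a : List ℕ) (ha : a ≠ []) :
    (X ++ M ++ Y).map f ≠ a ++ a := by
  obtain ⟨A, C, rfl⟩ := hMP
  have hplen : (A ++ M ++ C).length = A.length + M.length + C.length := by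
    simp; omega
  have hMlen : 1 ≤ M.length := List.length_pos_iff.2 hM
  have hget : ∀ u (hu : u < M.length) (hu' : A.length + u < (A ++ M ++ C).length),
      (A ++ M ++ C)[A.length + u] = M[u] := by
    intro u hu hu'
    rw [List.getElem_append_left (by simp; omega), List.getElem_append_right (by omega)]
    simp
  have hMmap : M.map f = (List.range M.length).map (fun u => g (A.length + 6 + u)) := by
    apply List.ext_getElem
    · simp
    · intro u h1 h2
      rw [List.length_map] at h1
      rw [List.getElem_map, List.getElem_map, List.getElem_range, ← hget u h1 (by simp; omega),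
        hfP, show A.length + 6 + u = A.length + u + 6 by omega]
  have hXY : ∀ (Z : List V), IsP G Z → (∀ z ∈ Z, z ∉ A ++ M ++ C) → Z.length ≤ 1 := by
    intro Z hZ hn
    rcases Z with _ | ⟨x, _ | ⟨y, Z⟩⟩
    · simp
    · simp
    · exfalso
      have h := hZ.1
      rw [List.isChain_cons_cons] at h
      exact leaves_not_adj hG hP hcat (hn x (by simp)) (hn y (by simp)) h.1
  have hX1 : X.length ≤ 1 := hXY X (hZ.part ⟨[], M ++ Y, by simp⟩) hX
  have hY1 : Y.length ≤ 1 := hXY Y (hZ.part ⟨X ++ M, [], by simp⟩) hY
  rw [List.map_append, List.map_append, hMmap]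
  refine word_core hg (A.length + 6) M.length hMlen (by omega) (by omega) (X.map f) (Y.map f)
    (by simpa using hX1) (by simpa using hY1) ?_ ?_ a ha
  · intro c hc
    rcases X with _ | ⟨x, X'⟩
    · simp at hc
    · obtain rfl : X' = [] := by
        rcases X' with _ | ⟨z, X'⟩
        · rfl
        · simp at hX1
      simp only [List.map_cons, List.map_nil, List.mem_singleton] at hc
      subst hc
      rcases M with _ | ⟨m, M'⟩
      · exact absurd rfl hM
      · have h := hZ.1
        simp only [List.cons_append, List.nil_append] at h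
        rw [List.isChain_cons_cons] at h
        have hg0 := hget 0 (by simp) (by simp)
        have := hfL x (hX x (by simp)) (A.length + 0) (by simp) (by rw [hg0]; exact h.1)
        simpa using this
  · intro c hc
    rcases Y with _ | ⟨y, Y'⟩
    · simp at hc
    · obtain rfl : Y' = [] := by
        rcases Y' with _ | ⟨z, Y'⟩
        · rfl
        · simp at hY1
      simp only [List.map_cons, List.map_nil, List.mem_singleton] at hc
      subst hc
      have h := hZ.1
      rw [List.isChain_append] at h
      have hl : (X ++ M).getLast? = some M[M.length - 1] := by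
        rw [List.getLast?_append_of_ne_nil _ hM, List.getLast?_eq_getElem?,
          List.getElem?_eq_getElem (by omega)]
      have hadj := h.2.2 M[M.length - 1] (by rw [hl]; simp) y (by simp)
      have hg0 := hget (M.length - 1) (by omega) (by simp; omega)
      have := hfL y (hY y (by simp)) (A.length + (M.length - 1)) (by simp; omega)
        (by rw [hg0]; exact hadj.symm)
      rwa [show A.length + 6 + M.length - 1 = A.length + (M.length - 1) + 6 by omega]

theorem caterpillar (hG : G.IsAcyclic) {P : List V} (hP : IsP G P)
    (hcat : ∀ v, v ∈ P ∨ ∃ u ∈ P, G.Adj v u) (L : V → Finset ℕ) (hL : ∀ v, 4 ≤ (L v).card) :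
    ∃ f : V → ℕ, (∀ v, f v ∈ L v) ∧
      ∀ l : List V, IsP G l → ∀ a : List ℕ, a ≠ [] → l.map f ≠ a ++ a := by
  classical
  obtain ⟨g, hg, hav⟩ := spine_colour (P.length + 13)
    (fun k => if h : 6 ≤ k ∧ k - 6 < P.length then L (P[k - 6]'h.2) else Finset.range 4) (by
      intro k hk
      by_cases h : 6 ≤ k ∧ k - 6 < P.length
      · simp only [h, and_self, dif_pos]
        exact hL _
      · simp only [h, dif_neg, not_false_eq_true]
        simp)
  have hidx : ∀ v, v ∉ P → ∃ i, ∃ (hi : i < P.length), G.Adj v P[i] := by
    intro v hv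
    rcases hcat v with h | ⟨u, hu, hadj⟩
    · exact absurd h hv
    · obtain ⟨i, hi, rfl⟩ := List.mem_iff_getElem.1 hu
      exact ⟨i, hi, hadj⟩
  have hcol : ∀ v, ∃ c ∈ L v, v ∉ P → ∀ i (hi : i < P.length), G.Adj v P[i] →
      Leaf g (i + 6) c := by
    intro v
    by_cases hv : v ∈ P
    · obtain ⟨c, hc⟩ := Finset.card_pos.1 (lt_of_lt_of_le (by norm_num) (hL v))
      exact ⟨c, hc, fun h => absurd hv h⟩
    · obtain ⟨i, hi, hadj⟩ := hidx v hv
      obtain ⟨c, hc, hcn⟩ := exists_leaf hav (i + 6) (by omega) (by omega) (L v) (hL v)
      refine ⟨c, hc, fun _ j hj hadj' => ?_⟩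
      have hij : i = j := attach_unique hG hP (l := [v]) ⟨by simp, by simp⟩
        (by simpa using hv) (x := v) (y := v) (by simp) (by simp) hi hj hadj hadj'
      subst hij
      exact hcn
  choose c hc hc' using hcol
  set f : V → ℕ := fun v => if v ∈ P then g (P.idxOf v + 6) else c v with hf
  have hfP : ∀ i (hi : i < P.length), f P[i] = g (i + 6) := by
    intro i hi
    simp only [hf, List.getElem_mem, if_true]
    rw [hP.2.idxOf_getElem]
  have hfL : ∀ v, v ∉ P → ∀ i (hi : i < P.length), G.Adj v P[i] → Leaf g (i + 6) (f v) := by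
    intro v hv i hi hadj
    simp only [hf, hv, if_false]
    exact hc' v hv i hi hadj
  refine ⟨f, ?_, ?_⟩
  · intro v
    by_cases hv : v ∈ P
    · obtain ⟨i, hi, rfl⟩ := List.mem_iff_getElem.1 hv
      rw [hfP]
      have h := hg (i + 6) (by omega)
      have h6 : 6 ≤ i + 6 ∧ i + 6 - 6 < P.length := by omega
      rw [dif_pos h6] at h
      simpa using h
    · simp only [hf, hv, if_false]
      exact hc v
  · intro l hl a ha he
    by_cases hmeet : ∃ z ∈ l, z ∈ P
    · obtain ⟨X, M, Y, rfl, hM, hX, hY, hMP⟩ := decomp hG hP hl hmeet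
      rcases hMP with hMP | hMP
      · exact core hG hP hcat hav hfP hfL hl hM hX hY hMP a ha he
      · have hrev : IsP G (Y.reverse ++ M.reverse ++ X.reverse) := by
          have := hl.reverse
          rwa [List.reverse_append, List.reverse_append, ← List.append_assoc] at this
        refine core hG hP hcat hav hfP hfL hrev (by simpa using hM)
          (fun y hy => hY y (by simpa using hy)) (fun x hx => hX x (by simpa using hx)) hMP
          a.reverse (by simpa using ha) ?_
        have := congrArg List.reverse he
        rw [List.reverse_append, ← List.map_reverse, List.reverse_append, List.reverse_append,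
          ← List.append_assoc] at this
        exact this
    · push_neg at hmeet
      have hlen := congrArg List.length he
      rw [List.length_map, List.length_append] at hlen
      have hapos : 1 ≤ a.length := List.length_pos_iff.2 ha
      rcases l with _ | ⟨x, _ | ⟨y, l⟩⟩
      · simp at hlen; omega
      · simp at hlen; omega
      · have h := hl.1
        rw [List.isChain_cons_cons] at h
        exact leaves_not_adj hG hP hcat (hmeet x (by simp)) (hmeet y (by simp)) h.1

end Pool.Agent.H54Z.Four
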