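import Mathlib

/-!
# List colouring of the spine with four colours: a potential argument

Words are lists, the last letter is the head. `mt p w` is the number of matched letters at the end
of `w` for the shift `p`; `T p` is the forbidden number of matches. The potential
`W w = 1 - ∑ p, (2 ^ mt p w - 1) / (2 ^ T p - 1)` can be kept positive: the sum of the potentials
of the admissible extensions of `w` by the letters of a list of four is at least `2 * W w`.
-/

set_option autoImplicit false

namespace Pool.Agent.H54Z.Four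

/-- The length of the longest common initial part. -/
def cpl : List ℕ → List ℕ → ℕ
  | a :: u, b :: v => if a = b then cpl u v + 1 else 0
  | [], _ => 0
  | _ :: _, [] => 0

/-- The number of matched letters at the head of `w` for the shift `p`. -/
def mt (p : ℕ) (w : List ℕ) : ℕ := cpl w (w.drop p)

/-- The forbidden number of matches for the shift `p`. -/
def T (p : ℕ) : ℕ := if p ≤ 3 then p else if p = 4 then 3 else p - 2

theorem cpl_nil (u : List ℕ) : cpl u [] = 0 := by
  cases u <;> rfl

theorem T_pos {p : ℕ} (hp : 1 ≤ p) : 1 ≤ T p := by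
  unfold T; split_ifs <;> omega

theorem mt_cons {p : ℕ} (hp : 1 ≤ p) (c : ℕ) (w : List ℕ) :
    mt p (c :: w) = if w[p - 1]? = some c then mt p w + 1 else 0 := by
  obtain ⟨q, rfl⟩ : ∃ q, p = q + 1 := ⟨p - 1, by omega⟩
  simp only [mt, List.drop_succ_cons, Nat.add_sub_cancel]
  by_cases h : q < w.length
  · rw [List.drop_eq_getElem_cons h, List.getElem?_eq_getElem h]
    simp only [cpl, Option.some.injEq]
    by_cases e : c = w[q]
    · simp [e]
    · simp [e, Ne.symm e]
  · rw [List.drop_eq_nil_of_le (by omega), cpl_nil, List.getElem?_eq_none (by omega)]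
    simp

theorem le_cpl (m : ℕ) : ∀ u v : List ℕ,
    (∀ t, t < m → ∃ a, u[t]? = some a ∧ v[t]? = some a) → m ≤ cpl u v := by
  induction m with
  | zero => intro u v _; exact Nat.zero_le _
  | succ m ih =>
    intro u v h
    obtain ⟨a, h1, h2⟩ := h 0 (by omega)
    rcases u with _ | ⟨b, u⟩
    · simp at h1
    rcases v with _ | ⟨b', v⟩
    · simp at h2
    simp only [List.getElem?_cons_zero, Option.some.injEq] at h1 h2
    subst h1 h2
    simp only [cpl, if_true]
    have := ih u v (by
      intro t ht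
      obtain ⟨x, h3, h4⟩ := h (t + 1) (by omega)
      exact ⟨x, by simpa using h3, by simpa using h4⟩)
    omega

/-- The weights. -/
noncomputable def kap (p : ℕ) : ℚ := 1 / (2 ^ T p - 1)

theorem two_pow_T {p : ℕ} (hp : 1 ≤ p) : (0 : ℚ) < 2 ^ T p - 1 := by
  have h : (2 : ℚ) ^ 1 ≤ 2 ^ T p := pow_le_pow_right₀ (by norm_num) (T_pos hp)
  linarith

theorem kap_nonneg {p : ℕ} (hp : 1 ≤ p) : 0 ≤ kap p :=
  div_nonneg zero_le_one (two_pow_T hp).le

theorem kap_tail {p : ℕ} (hp : 5 ≤ p) : kap p ≤ 8 / 7 * (1 / 2) ^ (p - 2) := by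
  have hT : T p = p - 2 := by unfold T; split_ifs <;> omega
  obtain ⟨q, rfl⟩ : ∃ q, p = q + 5 := ⟨p - 5, by omega⟩
  rw [kap, hT, show q + 5 - 2 = q + 3 by omega, div_le_iff₀ (by
    have : (1 : ℚ) ≤ 2 ^ q := one_le_pow₀ (by norm_num)
    rw [pow_add]; linarith)]
  have h1 : (1 / 2 : ℚ) ^ (q + 3) * 2 ^ (q + 3) = 1 := by
    rw [← mul_pow]; norm_num
  have h2 : (1 / 2 : ℚ) ^ (q + 3) ≤ 1 / 8 := by
    have : (1 / 2 : ℚ) ^ q ≤ 1 := pow_le_one₀ (by norm_num) (by norm_num)
    rw [pow_add]; linarith
  linarith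

theorem kap_sum_aux (N : ℕ) : ∑ p ∈ Finset.Ico 2 (N + 5), kap p ≤
    19 / 21 - 8 / 7 * (1 / 2) ^ (N + 2) := by
  induction N with
  | zero =>
    have h2 : kap 2 = 1 / 3 := by
      rw [kap, show T 2 = 2 from rfl]; norm_num
    have h3 : kap 3 = 1 / 7 := by
      rw [kap, show T 3 = 3 from rfl]; norm_num
    have h4 : kap 4 = 1 / 7 := by
      rw [kap, show T 4 = 3 from rfl]; norm_num
    have h : ∑ p ∈ Finset.Ico 2 (0 + 5), kap p = kap 2 + kap 3 + kap 4 := by
      rw [show (0 + 5 : ℕ) = 4 + 1 from rfl, Finset.sum_Ico_succ_top (by norm_num),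
        Finset.sum_Ico_succ_top (by norm_num), Finset.sum_Ico_succ_top (by norm_num)]
      simp
    rw [h, h2, h3, h4]
    norm_num
  | succ N ih =>
    rw [show N + 1 + 5 = (N + 5) + 1 by omega, Finset.sum_Ico_succ_top (by omega)]
    have h := kap_tail (p := N + 5) (by omega)
    rw [show N + 5 - 2 = N + 3 by omega] at h
    have h2 : (1 / 2 : ℚ) ^ (N + 3) = (1 / 2) ^ (N + 2) * (1 / 2) := by rw [← pow_succ]
    have h3 : (1 / 2 : ℚ) ^ (N + 1 + 2) = (1 / 2) ^ (N + 2) * (1 / 2) := by rw [← pow_succ]
    rw [h2] at h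
    rw [h3]
    linarith

theorem kap_sum (N : ℕ) : ∑ p ∈ Finset.Ico 2 N, kap p ≤ 1 := by
  have h1 : ∑ p ∈ Finset.Ico 2 N, kap p ≤ ∑ p ∈ Finset.Ico 2 (N + 5), kap p := by
    apply Finset.sum_le_sum_of_subset_of_nonneg
    · intro p hp
      rw [Finset.mem_Ico] at hp ⊢
      omega
    · intro p hp _
      rw [Finset.mem_Ico] at hp
      exact kap_nonneg (by omega)
  have h2 := kap_sum_aux N
  have h3 : (0 : ℚ) ≤ (1 / 2) ^ (N + 2) := by positivity
  linarith

/-- The potential. -/
noncomputable def W (N : ℕ) (w : List ℕ) : ℚ :=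
  1 - ∑ p ∈ Finset.Ico 2 N, kap p * (2 ^ mt p w - 1)

/-- No forbidden repetition at the head. -/
def Good (w : List ℕ) : Prop := ∀ p, 1 ≤ p → mt p w < T p

theorem one_le_two_pow (m : ℕ) : (1 : ℚ) ≤ 2 ^ m := one_le_pow₀ (by norm_num)

theorem step (N : ℕ) (w : List ℕ) (hlen : w.length < N) (hg : Good w) (hW : 0 < W N w)
    (A : Finset ℕ) (hA : 4 ≤ A.card) : ∃ c ∈ A, Good (c :: w) ∧ 0 < W N (c :: w) := by
  classical
  by_contra hcon
  push_neg at hcon
  set V : ℕ → ℚ := fun c => 1 - (if w[0]? = some c then 1 else 0) -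
    ∑ p ∈ Finset.Ico 2 N, (if w[p - 1]? = some c then kap p * (2 ^ (mt p w + 1) - 1) else 0)
    with hV
  have hterm : ∀ c, ∀ p ∈ Finset.Ico 2 N,
      0 ≤ (if w[p - 1]? = some c then kap p * (2 ^ (mt p w + 1) - 1) else 0) := by
    intro c p hp
    rw [Finset.mem_Ico] at hp
    split_ifs
    · exact mul_nonneg (kap_nonneg (by omega)) (by linarith [one_le_two_pow (mt p w + 1)])
    · exact le_rfl
  have h1 : ∀ c ∈ A, V c ≤ 0 := by
    intro c hc
    by_cases hgc : Good (c :: w)
    · have hle := hcon c hc hgc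
      have h0 : ¬ w[0]? = some c := by
        intro h
        have h2 := hgc 1 le_rfl
        rw [mt_cons le_rfl, if_pos (by simpa using h)] at h2
        simp [T] at h2
      have he : W N (c :: w) = V c := by
        simp only [W, hV, if_neg h0, sub_zero]
        congr 1
        apply Finset.sum_congr rfl
        intro p hp
        rw [Finset.mem_Ico] at hp
        rw [mt_cons (by omega)]
        split_ifs
        · rfl
        · simp
      rw [← he]
      exact hle
    · simp only [Good, not_forall, not_lt] at hgc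
      obtain ⟨p, hp, hb⟩ := hgc
      rw [mt_cons hp] at hb
      have hTp := T_pos hp
      split_ifs at hb with hwc
      · have hmp := hg p hp
        have hm : mt p w + 1 = T p := by omega
        have hnn := Finset.sum_nonneg (hterm c)
        by_cases hp1 : p = 1
        · subst hp1
          have h0 : w[0]? = some c := by simpa using hwc
          simp only [hV, if_pos h0]
          linarith
        · have hlt : p - 1 < w.length := by
            by_contra hge
            rw [List.getElem?_eq_none (by omega)] at hwc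
            simp at hwc
          have hmem : p ∈ Finset.Ico 2 N := by rw [Finset.mem_Ico]; omega
          have hs := Finset.single_le_sum (hterm c) hmem
          rw [if_pos hwc, hm] at hs
          have hk : kap p * (2 ^ T p - 1) = 1 := by
            rw [kap]
            exact one_div_mul_cancel (two_pow_T hp).ne'
          rw [hk] at hs
          have h01 : (0 : ℚ) ≤ (if w[0]? = some c then 1 else 0) := by
            split_ifs <;> norm_num
          simp only [hV]
          linarith
      · omega
  have hat : ∀ (o : Option ℕ) (a : ℚ), 0 ≤ a →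
      ∑ c ∈ A, (if o = some c then a else 0) ≤ a := by
    intro o a ha
    rcases o with _ | b
    · simpa using ha
    · simp only [Option.some.injEq]
      rw [Finset.sum_ite_eq]
      split_ifs
      · exact le_rfl
      · exact ha
  have h2 : (A.card : ℚ) - 1 - ∑ p ∈ Finset.Ico 2 N, kap p * (2 ^ (mt p w + 1) - 1) ≤
      ∑ c ∈ A, V c := by
    have e1 : ∑ c ∈ A, V c = (A.card : ℚ) - ∑ c ∈ A, (if w[0]? = some c then (1 : ℚ) else 0) -
        ∑ p ∈ Finset.Ico 2 N, ∑ c ∈ A,
          (if w[p - 1]? = some c then kap p * (2 ^ (mt p w + 1) - 1) else 0) := by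
      rw [Finset.sum_comm]
      simp only [hV, Finset.sum_sub_distrib, Finset.sum_const, nsmul_eq_mul, mul_one]
    rw [e1]
    have e2 := hat w[0]? 1 zero_le_one
    have e3 : ∑ p ∈ Finset.Ico 2 N, ∑ c ∈ A,
          (if w[p - 1]? = some c then kap p * (2 ^ (mt p w + 1) - 1) else 0) ≤
        ∑ p ∈ Finset.Ico 2 N, kap p * (2 ^ (mt p w + 1) - 1) := by
      apply Finset.sum_le_sum
      intro p hp
      rw [Finset.mem_Ico] at hp
      exact hat _ _ (mul_nonneg (kap_nonneg (by omega))
        (by linarith [one_le_two_pow (mt p w + 1)]))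
    linarith
  have h3 : ∑ c ∈ A, V c ≤ 0 := Finset.sum_nonpos h1
  have h4 : ∑ p ∈ Finset.Ico 2 N, kap p * (2 ^ (mt p w + 1) - 1) =
      2 * (∑ p ∈ Finset.Ico 2 N, kap p * (2 ^ mt p w - 1)) + ∑ p ∈ Finset.Ico 2 N, kap p := by
    rw [Finset.mul_sum, ← Finset.sum_add_distrib]
    apply Finset.sum_congr rfl
    intro p _
    rw [pow_succ]
    ring
  have h5 := kap_sum N
  have h6 : (4 : ℚ) ≤ A.card := by exact_mod_cast hA
  unfold W at hW
  linarith

/-- All suffixes are good and the letters are in their lists. -/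
def PG (L : ℕ → Finset ℕ) : List ℕ → Prop
  | [] => True
  | c :: w => c ∈ L w.length ∧ PG L w ∧ Good (c :: w)

theorem mt_nil (p : ℕ) : mt p [] = 0 := by simp [mt, cpl]

theorem exists_word (L : ℕ → Finset ℕ) (N : ℕ) (hL : ∀ i, i < N → 4 ≤ (L i).card) :
    ∀ n, n ≤ N → ∃ w : List ℕ, w.length = n ∧ PG L w ∧ Good w ∧ 0 < W N w := by
  intro n
  induction n with
  | zero =>
    intro _
    refine ⟨[], rfl, trivial, ?_, ?_⟩
    · intro p hp
      rw [mt_nil]
      exact T_pos hp
    · simp [W, mt_nil]
  | succ n ih =>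
    intro hn
    obtain ⟨w, h1, h2, h3, h4⟩ := ih (by omega)
    obtain ⟨c, hc, h5, h6⟩ := step N w (by omega) h3 h4 (L n) (hL n (by omega))
    exact ⟨c :: w, by simp [h1], ⟨by rw [h1]; exact hc, h2, h5⟩, h5, h6⟩

theorem PG_drop {L : ℕ → Finset ℕ} : ∀ (k : ℕ) (w : List ℕ), PG L w → PG L (w.drop k) := by
  intro k
  induction k with
  | zero => intro w h; simpa using h
  | succ k ih =>
    intro w h
    rcases w with _ | ⟨c, w⟩
    · simpa using h
    · simpa using ih w h.2.1

/-- `g` has no forbidden repetition on `0, ..., n - 1`. -/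
def Av (g : ℕ → ℕ) (n : ℕ) : Prop :=
  ∀ p, 1 ≤ p → ∀ i, i + T p + p ≤ n → ∃ u, u < T p ∧ g (i + u) ≠ g (i + u + p)

/-- List colouring of the spine with four colours. -/
theorem spine_colour (n : ℕ) (L : ℕ → Finset ℕ) (hL : ∀ i, i < n → 4 ≤ (L i).card) :
    ∃ g : ℕ → ℕ, (∀ i, i < n → g i ∈ L i) ∧ Av g n := by
  obtain ⟨w, hlen, hw, -, -⟩ := exists_word L n hL n le_rfl
  set g : ℕ → ℕ := fun i => (w[n - 1 - i]?).getD 0 with hg
  have hk : ∀ k, k < n → w[k]? = some (g (n - 1 - k)) := by
    intro k hk
    have e : n - 1 - (n - 1 - k) = k := by omega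
    simp only [hg, e]
    rw [List.getElem?_eq_getElem (by omega)]
    simp
  refine ⟨g, ?_, ?_⟩
  · intro i hi
    have h := PG_drop (n - 1 - i) w hw
    rw [List.drop_eq_getElem_cons (by omega)] at h
    have h1 := h.1
    have h2 := hk (n - 1 - i) (by omega)
    rw [List.getElem?_eq_getElem (by omega)] at h2
    rw [Option.some.inj h2, List.length_drop,
      show w.length - (n - 1 - i + 1) = i by omega,
      show n - 1 - (n - 1 - i) = i by omega] at h1
    exact h1
  · intro p hp i hi
    by_contra hcon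
    push_neg at hcon
    have hT := T_pos hp
    set k := n - (i + T p + p) with hkdef
    have h := PG_drop k w hw
    rw [List.drop_eq_getElem_cons (by omega)] at h
    have h1 := h.2.2 p hp
    rw [← List.drop_eq_getElem_cons (by omega)] at h1
    have h2 : T p ≤ mt p (w.drop k) := by
      apply le_cpl
      intro t ht
      refine ⟨g (n - 1 - (k + t)), ?_, ?_⟩
      · rw [List.getElem?_drop, hk _ (by omega)]
      · rw [List.getElem?_drop, List.getElem?_drop, hk _ (by omega)]
        congr 1
        have h3 := hcon (T p - 1 - t) (by omega)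
        rw [show n - 1 - (k + (p + t)) = i + (T p - 1 - t) by omega,
          show n - 1 - (k + t) = i + (T p - 1 - t) + p by omega]
        exact h3
    omega

end Pool.Agent.H54Z.Four
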