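import Pool.Agent.Lib.H54Z.Def

set_option autoImplicit false

namespace Pool.Agent.H54Z

variable {V : Type} {G : SimpleGraph V}

theorem IsP.reverse {l : List V} (h : IsP G l) : IsP G l.reverse := by
  refine ⟨?_, List.nodup_reverse.2 h.2⟩
  rw [List.isChain_reverse]
  exact h.1.imp (fun a b hab => hab.symm)

theorem IsP.part {l m : List V} (h : IsP G l) (hm : m <:+: l) : IsP G m := by
  obtain ⟨s, t, rfl⟩ := hm
  exact ⟨h.1.left_of_append.right_of_append, h.2.sublist (List.IsInfix.sublist ⟨s, t, rfl⟩)⟩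

/-- unique paths in an acyclic graph: `SimpleGraph.Walk.ofSupport` and `IsAcyclic.path_unique` -/
theorem uniq (hG : G.IsAcyclic) {l₁ l₂ : List V} (h₁ : IsP G l₁) (h₂ : IsP G l₂)
    (hh : l₁.head? = l₂.head?) (hl : l₁.getLast? = l₂.getLast?) : l₁ = l₂ := by
  rcases eq_or_ne l₁ [] with h1 | h1
  · subst h1
    rw [List.head?_nil] at hh
    exact (List.head?_eq_none_iff.1 hh.symm).symm
  rcases eq_or_ne l₂ [] with h2 | h2
  · subst h2
    rw [List.head?_nil] at hh
    exact absurd (List.head?_eq_none_iff.1 hh) h1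
  have e1 : l₁.head h1 = l₂.head h2 := by
    rw [List.head?_eq_some_head h1, List.head?_eq_some_head h2] at hh
    exact Option.some.inj hh
  have e2 : l₁.getLast h1 = l₂.getLast h2 := by
    rw [List.getLast?_eq_some_getLast h1, List.getLast?_eq_some_getLast h2] at hl
    exact Option.some.inj hl
  set p := SimpleGraph.Walk.ofSupport l₁ h1 h₁.1 with hp
  set q := (SimpleGraph.Walk.ofSupport l₂ h2 h₂.1).copy e1.symm e2.symm with hq
  have sp : p.support = l₁ := SimpleGraph.Walk.support_ofSupport h1 h₁.1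
  have sq : q.support = l₂ := by
    rw [hq, SimpleGraph.Walk.support_copy]
    exact SimpleGraph.Walk.support_ofSupport h2 h₂.1
  have pp : p.IsPath := by
    rw [SimpleGraph.Walk.isPath_def, sp]; exact h₁.2
  have qq : q.IsPath := by
    rw [SimpleGraph.Walk.isPath_def, sq]; exact h₂.2
  have := hG.path_unique ⟨p, pp⟩ ⟨q, qq⟩
  have h3 : p = q := congrArg Subtype.val this
  rw [← sp, ← sq, h3]

end Pool.Agent.H54Z
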