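import Pool.Agent.Lib.H54Z.W4

/-!
# No repetition on a path of the caterpillar
-/

set_option autoImplicit false

namespace Pool.Agent.H54Z.Four

theorem lA1 {g : ℕ → ℕ} {i x : ℕ} (h : g i = g (i + 2)) (hx : Leaf g i x) : x ≠ g (i + 1) :=
  hx.h2' h

theorem lA1' {g : ℕ → ℕ} {i y : ℕ} (h : g i = g (i + 2)) (hy : Leaf g (i + 2) y) :
    y ≠ g (i + 1) := by
  have h1 := hy.h1
  rw [show i + 2 - 1 = i + 1 by omega] at h1
  apply h1
  left
  rw [show i + 1 - 1 = i by omega]
  exact h.symm

theorem lA2 {g : ℕ → ℕ} {i x : ℕ} (h : g i = g (i + 3)) (h' : g (i + 1) = g (i + 4))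
    (hx : Leaf g i x) : x ≠ g (i + 2) :=
  hx.h4 (Or.inl ⟨h, h'⟩)

theorem lA2' {g : ℕ → ℕ} {i y : ℕ} (h : g i = g (i + 3)) (h' : g (i + 1) = g (i + 4))
    (hy : Leaf g (i + 4) y) : y ≠ g (i + 2) := by
  have h3 := hy.h3
  rw [show i + 4 - 2 = i + 2 by omega] at h3
  apply h3
  refine ⟨?_, Or.inl ?_⟩
  · rw [show i + 4 - 3 = i + 1 by omega]
    exact h'.symm
  · rw [show i + 4 - 1 = i + 3 by omega, show i + 4 - 4 = i by omega]
    exact h.symm

theorem lC0 {g : ℕ → ℕ} {i x y : ℕ} (hx : Leaf g i x) (hy : Leaf g (i + 1) y) :
    ¬ (x = g (i + 1) ∧ y = g i) := by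
  rintro ⟨h1, h2⟩
  by_cases hP : PR g i
  · have h3 := hy.h1
    rw [show i + 1 - 1 = i by omega] at h3
    exact h3 hP h2
  · exact hx.h2 hP h1

theorem lC1 {g : ℕ → ℕ} {i x y : ℕ} (hi : 1 ≤ i) (h : g i = g (i + 3)) (hx : Leaf g i x)
    (hy : Leaf g (i + 3) y) : ¬ (x = g (i + 2) ∧ y = g (i + 1)) := by
  rintro ⟨h1, h2⟩
  by_cases hL : L3 g (i + 3)
  · have h3 := hy.h3
    rw [show i + 3 - 2 = i + 1 by omega] at h3
    exact h3 hL h2
  · apply hx.h4 ?_ h1
    right
    rw [L3, show i + 3 - 3 = i by omega, show i + 3 - 1 = i + 2 by omega,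
      show i + 3 - 4 = i - 1 by omega] at hL
    have h5 : ¬ (g (i + 2) = g (i - 1) ∨ ¬ (A2 g (i + 2) ∧ D4 g (i + 2))) :=
      fun h6 => hL ⟨h.symm, h6⟩
    rw [not_or, not_not] at h5
    exact ⟨h, fun h6 => h5.1 h6.symm, h5.2.1, h5.2.2⟩

theorem lC2 {g : ℕ → ℕ} {n : ℕ} (hg : Av g n) {i x y : ℕ} (hi : 1 ≤ i) (hn : i + 6 ≤ n)
    (h : g i = g (i + 4)) (h' : g (i + 1) = g (i + 5)) (hx : Leaf g i x)
    (hy : Leaf g (i + 5) y) : ¬ (x = g (i + 3) ∧ y = g (i + 2)) := by
  rintro ⟨h1, h2⟩
  by_cases he : g (i + 5) = g (i + 3)
  · apply hx.h2 ?_ (by rw [h1, ← he, h'])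
    rintro (hp | ⟨⟨hp, -⟩, -⟩)
    · obtain ⟨k, rfl⟩ : ∃ k, i = k + 1 := ⟨i - 1, by omega⟩
      rw [show k + 1 - 1 = k by omega] at hp
      refine av4 hg k (by omega) ?_ h h'
      rw [← hp, h', he]
    · exact av1 hg i (by omega) (by rw [hp, ← he, h'])
  · have h5 := hy.h5
    rw [show i + 5 - 3 = i + 2 by omega] at h5
    apply h5 ?_ h2
    rw [D4, show i + 5 - 4 = i + 1 by omega, show i + 5 - 1 = i + 4 by omega,
      show i + 5 - 5 = i by omega, show i + 5 - 2 = i + 3 by omega]
    exact ⟨h'.symm, h.symm, he⟩

theorem T_le_sub {t : ℕ} (ht : 4 ≤ t) : T t ≤ t - 1 := by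
  unfold T; split_ifs <;> omega

theorem T_le_sub2 {t : ℕ} (ht : 5 ≤ t) : T t ≤ t - 2 := by
  unfold T; split_ifs <;> omega

theorem T_le_self (t : ℕ) : T t ≤ t := by
  unfold T; split_ifs <;> omega

theorem sq_get {a : List ℕ} {w : List ℕ} (h : w = a ++ a) (e : ℕ) (he : e < a.length) :
    w[e]? = w[e + a.length]? := by
  subst h
  rw [List.getElem?_append_left he, List.getElem?_append_right (by omega)]
  simp

/-- The word lemma for caterpillars. -/
theorem word_core {g : ℕ → ℕ} {n : ℕ} (hg : Av g n) (i p : ℕ) (hp : 1 ≤ p) (hi : 1 ≤ i)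
    (hip : i + p + 6 ≤ n) (xs ys : List ℕ) (hx1 : xs.length ≤ 1) (hy1 : ys.length ≤ 1)
    (hx : ∀ x ∈ xs, Leaf g i x) (hy : ∀ y ∈ ys, Leaf g (i + p - 1) y)
    (a : List ℕ) (ha : a ≠ []) :
    xs ++ (List.range p).map (fun u => g (i + u)) ++ ys ≠ a ++ a := by
  intro h
  have hlen := congrArg List.length h
  simp only [List.length_append, List.length_map, List.length_range] at hlen
  have ht : 1 ≤ a.length := by
    rcases a with _ | ⟨b, a⟩
    · exact absurd rfl ha
    · simp
  set t := a.length with htdef
  have hget : ∀ e, e < t → (xs ++ (List.range p).map (fun u => g (i + u)) ++ ys)[e]? =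
      (xs ++ (List.range p).map (fun u => g (i + u)) ++ ys)[e + t]? := fun e he => sq_get h e he
  -- letters in the middle part
  have hmid : ∀ e, xs.length ≤ e → e < xs.length + p →
      (xs ++ (List.range p).map (fun u => g (i + u)) ++ ys)[e]? = some (g (i + (e - xs.length))) := by
    intro e h1 h2
    rw [List.getElem?_append_left (by simp; omega), List.getElem?_append_right h1,
      List.getElem?_map, List.getElem?_range (by omega)]
    rfl
  rcases xs with _ | ⟨x, xs⟩
  · rcases ys with _ | ⟨y, ys⟩
    · -- no leaves
      simp only [List.length_nil] at hlen hmid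
      refine NR hg i t t ht (T_le_self t) (by omega) ?_
      intro u hu
      have := hget u hu
      rw [hmid u (by omega) (by omega), hmid (u + t) (by omega) (by omega)] at this
      have := Option.some.inj this
      simp only [Nat.sub_zero] at this
      rw [this]
      congr 1
      omega
    · -- leaf at the end
      obtain rfl : ys = [] := by
        rcases ys with _ | ⟨z, ys⟩
        · rfl
        · simp at hy1
      simp only [List.length_nil, List.length_cons] at hlen hmid
      have hlast : (([] : List ℕ) ++ (List.range p).map (fun u => g (i + u)) ++ [y])[p]? =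
          some y := by
        rw [List.getElem?_append_right (by simp)]
        simp
      have hyy := hy y (by simp)
      have h0 := hget (t - 1) (by omega)
      have e1 : t - 1 + t = p := by omega
      rw [e1, hlast, hmid (t - 1) (by omega) (by omega)] at h0
      have h0 := Option.some.inj h0
      simp only [Nat.sub_zero] at h0
      -- matches of the spine
      have hm : ∀ u, u < t - 1 → g (i + u) = g (i + t + u) := by
        intro u hu
        have := hget u (by omega)
        rw [hmid u (by omega) (by omega), hmid (u + t) (by omega) (by omega)] at this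
        have := Option.some.inj this
        simp only [Nat.sub_zero] at this
        rw [this]
        congr 1
        omega
      by_cases h1 : t = 1
      · apply hyy.h0
        rw [← h0]
        congr 1
        omega
      by_cases h22 : t = 2
      · have h3 := hm 0 (by omega)
        rw [h22] at h3 h0
        rw [show i + p - 1 = i + 2 by omega] at hyy
        exact lA1' (by simpa using h3) hyy h0.symm
      by_cases h33 : t = 3
      · have h3 := hm 0 (by omega)
        have h4 := hm 1 (by omega)
        rw [h33] at h3 h4 h0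
        rw [show i + p - 1 = i + 4 by omega] at hyy
        exact lA2' (by simpa using h3) h4 hyy h0.symm
      exact NR hg i (t - 1) t ht (T_le_sub (by omega)) (by omega) hm
  · obtain rfl : xs = [] := by
      rcases xs with _ | ⟨z, xs⟩
      · rfl
      · simp at hx1
    have hxx := hx x (by simp)
    rcases ys with _ | ⟨y, ys⟩
    · -- leaf at the beginning
      simp only [List.length_nil, List.length_cons] at hlen hmid
      have h0 := hget 0 (by omega)
      rw [hmid (0 + t) (by omega) (by omega)] at h0
      simp only [List.cons_append, List.getElem?_cons_zero] at h0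
      have h0 := Option.some.inj h0
      have hm : ∀ u, u < t - 1 → g (i + u) = g (i + t + u) := by
        intro u hu
        have := hget (u + 1) (by omega)
        rw [hmid (u + 1) (by omega) (by omega), hmid (u + 1 + t) (by omega) (by omega)] at this
        have := Option.some.inj this
        have e1 : i + (u + 1 - (0 + 1)) = i + u := by omega
        have e2 : i + (u + 1 + t - (0 + 1)) = i + t + u := by omega
        rw [e1, e2] at this
        exact this
      rw [show i + (0 + t - (0 + 1)) = i + (t - 1) by omega] at h0
      by_cases h1 : t = 1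
      · apply hxx.h0
        rw [h0, h1]
        simp
      by_cases h22 : t = 2
      · have h3 := hm 0 (by omega)
        rw [h22] at h3 h0
        exact lA1 (by simpa using h3) hxx (by simpa using h0)
      by_cases h33 : t = 3
      · have h3 := hm 0 (by omega)
        have h4 := hm 1 (by omega)
        rw [h33] at h3 h4 h0
        exact lA2 (by simpa using h3) h4 hxx (by simpa using h0)
      exact NR hg i (t - 1) t ht (T_le_sub (by omega)) (by omega) hm
    · -- leaves at both ends
      obtain rfl : ys = [] := by
        rcases ys with _ | ⟨z, ys⟩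
        · rfl
        · simp at hy1
      have hyy := hy y (by simp)
      simp only [List.length_nil, List.length_cons] at hlen hmid
      have h0 := hget 0 (by omega)
      rw [hmid (0 + t) (by omega) (by omega)] at h0
      simp only [List.cons_append, List.getElem?_cons_zero] at h0
      have h0 := Option.some.inj h0
      rw [show i + (0 + t - (0 + 1)) = i + (t - 1) by omega] at h0
      have hm : ∀ u, u < t - 2 → g (i + u) = g (i + t + u) := by
        intro u hu
        have := hget (u + 1) (by omega)
        rw [hmid (u + 1) (by omega) (by omega), hmid (u + 1 + t) (by omega) (by omega)] at this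
        have := Option.some.inj this
        have e1 : i + (u + 1 - (0 + 1)) = i + u := by omega
        have e2 : i + (u + 1 + t - (0 + 1)) = i + t + u := by omega
        rw [e1, e2] at this
        exact this
      have hlast : ([x] ++ (List.range p).map (fun u => g (i + u)) ++ [y])[p + 1]? =
          some y := by
        rw [List.getElem?_append_right (by simp)]
        simp
      have h5 := hget (t - 1) (by omega)
      rw [show t - 1 + t = p + 1 by omega, hlast, hmid (t - 1) (by omega) (by omega)] at h5
      have h5 := Option.some.inj h5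
      rw [show i + (t - 1 - (0 + 1)) = i + (t - 2) by omega] at h5
      by_cases h1 : t = 2
      · rw [h1] at h0 h5
        rw [show i + p - 1 = i + 1 by omega] at hyy
        exact lC0 hxx hyy ⟨by simpa using h0, by simpa using h5.symm⟩
      by_cases h22 : t = 3
      · have h3 := hm 0 (by omega)
        rw [h22] at h0 h5 h3
        rw [show i + p - 1 = i + 3 by omega] at hyy
        exact lC1 hi (by simpa using h3) hxx hyy ⟨by simpa using h0, by simpa using h5.symm⟩
      by_cases h33 : t = 4
      · have h3 := hm 0 (by omega)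
        have h4 := hm 1 (by omega)
        rw [h33] at h0 h5 h3 h4
        rw [show i + p - 1 = i + 5 by omega] at hyy
        exact lC2 hg hi (by omega) (by simpa using h3) h4 hxx hyy
          ⟨by simpa using h0, by simpa using h5.symm⟩
      exact NR hg i (t - 2) t ht (T_le_sub2 (by omega)) (by omega) hm

end Pool.Agent.H54Z.Four
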