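import Pool.Agent.Lib.H54Z.P4

/-!
# Colours of the leaves

For a word `g` without forbidden repetitions every position `j` gets a set of three colours
(the colours which the leaves at `j` avoid); `Leaf g j c` says that `c` is none of them.
-/

set_option autoImplicit false

namespace Pool.Agent.H54Z.Four

/-- `x y z x y` starts at `j`. -/
def A2 (g : ℕ → ℕ) (j : ℕ) : Prop := g j = g (j + 3) ∧ g (j + 1) = g (j + 4)

/-- `x y ? ? x y` ends at `j` and `g j ≠ g (j - 2)`. -/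
def D4 (g : ℕ → ℕ) (j : ℕ) : Prop := g j = g (j - 4) ∧ g (j - 1) = g (j - 5) ∧ g j ≠ g (j - 2)

/-- The leaves at `j` avoid `g (j - 2)`. -/
def L3 (g : ℕ → ℕ) (j : ℕ) : Prop :=
  g j = g (j - 3) ∧ (g (j - 1) = g (j - 4) ∨ ¬ (A2 g (j - 1) ∧ D4 g (j - 1)))

/-- The leaves at `j` avoid `g (j + 2)`. -/
def R3 (g : ℕ → ℕ) (j : ℕ) : Prop :=
  A2 g j ∨ (g j = g (j + 3) ∧ g (j - 1) ≠ g (j + 2) ∧ A2 g (j + 2) ∧ D4 g (j + 2))

/-- The leaves at `j + 1` avoid `g j` (otherwise the leaves at `j` avoid `g (j + 1)`). -/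
def PR (g : ℕ → ℕ) (j : ℕ) : Prop :=
  g (j + 1) = g (j - 1) ∨
    (A2 g j ∧ (g j = g (j - 2) ∨ (g j = g (j - 3) ∧ g (j + 1) ≠ g (j - 2)) ∨ D4 g j))

/-- The colour `c` is admissible for the leaves at `j`. -/
structure Leaf (g : ℕ → ℕ) (j c : ℕ) : Prop where
  h0 : c ≠ g j
  h1 : PR g (j - 1) → c ≠ g (j - 1)
  h2 : ¬ PR g j → c ≠ g (j + 1)
  h2' : g j = g (j + 2) → c ≠ g (j + 1)
  h3 : L3 g j → c ≠ g (j - 2)
  h4 : R3 g j → c ≠ g (j + 2)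
  h5 : D4 g j → c ≠ g (j - 3)

/-- The counting of the colours to be avoided. -/
theorem core3 (a0 a1 a2 a3 a4 a5 a6 a7 a8 a9 a10 a11 a12 : ℕ)
    (n1 : a1 ≠ a2) (n2 : a2 ≠ a3) (n3 : a3 ≠ a4) (n5 : a5 ≠ a6) (n6 : a6 ≠ a7) (n8 : a8 ≠ a9)
    (q4 : ¬ (a0 = a4 ∧ a1 = a5 ∧ a2 = a6)) (t3 : ¬ (a5 = a8 ∧ a6 = a9 ∧ a7 = a10)) :
    ∃ a b : ℕ, ∀ c : ℕ, c ≠ a6 → c ≠ a → c ≠ b →
      ((a6 = a4 ∨ ((a5 = a8 ∧ a6 = a9) ∧
        (a5 = a3 ∨ (a5 = a2 ∧ a6 ≠ a3) ∨ (a5 = a1 ∧ a4 = a0 ∧ a5 ≠ a3)))) → c ≠ a5) ∧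
      (¬ (a7 = a5 ∨ ((a6 = a9 ∧ a7 = a10) ∧
        (a6 = a4 ∨ (a6 = a3 ∧ a7 ≠ a4) ∨ (a6 = a2 ∧ a5 = a1 ∧ a6 ≠ a4)))) → c ≠ a7) ∧
      (a6 = a8 → c ≠ a7) ∧
      ((a6 = a3 ∧ (a5 = a2 ∨ ¬ ((a5 = a8 ∧ a6 = a9) ∧ (a5 = a1 ∧ a4 = a0 ∧ a5 ≠ a3)))) →
        c ≠ a4) ∧
      (((a6 = a9 ∧ a7 = a10) ∨ (a6 = a9 ∧ a5 ≠ a8 ∧ (a8 = a11 ∧ a9 = a12) ∧
        (a8 = a4 ∧ a7 = a3 ∧ a8 ≠ a6))) → c ≠ a8) ∧
      ((a6 = a2 ∧ a5 = a1 ∧ a6 ≠ a4) → c ≠ a3) := by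
  by_cases hM : (a5 = a8 ∧ a6 = a9) ∧
        (a5 = a3 ∨ (a5 = a2 ∧ a6 ≠ a3) ∨ (a5 = a1 ∧ a4 = a0 ∧ a5 ≠ a3))
  · refine ⟨a5, a7, fun c x0 x1 x2 => ⟨fun _ => x1, fun _ => x2, fun _ => x2, ?_, ?_, ?_⟩⟩
    · rintro ⟨l1, l2⟩
      exfalso
      obtain ⟨⟨m1, m2⟩, m3⟩ := hM
      rcases m3 with m3 | ⟨m3, m4⟩ | ⟨m3, m4, m5⟩
      · exact n5 (m3.trans l1.symm)
      · exact m4 l1
      · rcases l2 with l2 | l2
        · exact n1 (m3.symm.trans l2)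
        · exact l2 ⟨⟨m1, m2⟩, m3, m4, m5⟩
    · intro hR
      exfalso
      obtain ⟨⟨m1, m2⟩, m3⟩ := hM
      rcases hR with ⟨r1, r2⟩ | ⟨r1, r2, r3⟩
      · exact t3 ⟨m1, m2, r2⟩
      · exact r2 m1
    · rintro ⟨d1, d2, d3⟩
      obtain ⟨⟨m1, m2⟩, m3⟩ := hM
      rcases m3 with m3 | ⟨m3, m4⟩ | ⟨m3, m4, m5⟩
      · rw [← m3]
        exact x1
      · exact absurd (m3.trans d1.symm) n5
      · exfalso
        exact q4 ⟨m4.symm, d2.symm, d1.symm⟩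
  · by_cases h4 : a6 = a4
    · by_cases hR : ((a6 = a9 ∧ a7 = a10) ∨ (a6 = a9 ∧ a5 ≠ a8 ∧ (a8 = a11 ∧ a9 = a12) ∧
        (a8 = a4 ∧ a7 = a3 ∧ a8 ≠ a6)))
      · refine ⟨a5, a8, fun c x0 x1 x2 => ⟨fun _ => x1, ?_, ?_, ?_, fun _ => x2, ?_⟩⟩
        · intro hP
          exfalso
          apply hP
          right
          rcases hR with ⟨r1, r2⟩ | ⟨r1, r2, r3, r4, r5, r6⟩
          · exact ⟨⟨r1, r2⟩, Or.inl h4⟩
          · exact absurd (r4.trans h4.symm) r6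
        · intro h8
          rcases hR with ⟨r1, r2⟩ | ⟨r1, r2⟩
          · exact absurd (h8.symm.trans r1) n8
          · exact absurd (h8.symm.trans r1) n8
        · rintro ⟨l1, -⟩
          exact absurd (l1.symm.trans h4) n3
        · rintro ⟨-, -, d3⟩
          exact absurd h4 d3
      · refine ⟨a5, a7, fun c x0 x1 x2 => ⟨fun _ => x1, fun _ => x2, fun _ => x2, ?_, ?_, ?_⟩⟩
        · rintro ⟨l1, -⟩
          exact absurd (l1.symm.trans h4) n3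
        · intro h; exact absurd h hR
        · rintro ⟨-, -, d3⟩
          exact absurd h4 d3
    · have hP5 : ¬ (a6 = a4 ∨ ((a5 = a8 ∧ a6 = a9) ∧
        (a5 = a3 ∨ (a5 = a2 ∧ a6 ≠ a3) ∨ (a5 = a1 ∧ a4 = a0 ∧ a5 ≠ a3)))) := by
        rintro (h | h)
        · exact h4 h
        · exact hM h
      by_cases h3 : a6 = a3
      · by_cases hR : ((a6 = a9 ∧ a7 = a10) ∨ (a6 = a9 ∧ a5 ≠ a8 ∧ (a8 = a11 ∧ a9 = a12) ∧
          (a8 = a4 ∧ a7 = a3 ∧ a8 ≠ a6)))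
        · refine ⟨a4, a8, fun c x0 x1 x2 => ⟨fun h => absurd h hP5, ?_, ?_, fun _ => x1,
            fun _ => x2, ?_⟩⟩
          · intro hP
            rcases hR with ⟨r1, r2⟩ | ⟨r1, r2, r3, r4, r5, r6⟩
            · by_cases h74 : a7 = a4
              · rw [h74]
                exact x1
              · exact absurd (Or.inr ⟨⟨r1, r2⟩, Or.inr (Or.inl ⟨h3, h74⟩)⟩) hP
            · exact absurd (h3.trans r5.symm) n6
          · intro h8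
            rcases hR with ⟨r1, r2⟩ | ⟨r1, r2⟩
            · exact absurd (h8.symm.trans r1) n8
            · exact absurd (h8.symm.trans r1) n8
          · rintro ⟨d1, -, -⟩
            exact absurd (d1.symm.trans h3) n2
        · refine ⟨a4, a7, fun c x0 x1 x2 => ⟨fun h => absurd h hP5, fun _ => x2, fun _ => x2,
            fun _ => x1, fun h => absurd h hR, ?_⟩⟩
          rintro ⟨d1, -, -⟩
          exact absurd (d1.symm.trans h3) n2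
      · by_cases hD : a6 = a2 ∧ a5 = a1 ∧ a6 ≠ a4
        · by_cases hR : ((a6 = a9 ∧ a7 = a10) ∨ (a6 = a9 ∧ a5 ≠ a8 ∧ (a8 = a11 ∧ a9 = a12) ∧
            (a8 = a4 ∧ a7 = a3 ∧ a8 ≠ a6)))
          · refine ⟨a3, a8, fun c x0 x1 x2 => ⟨fun h => absurd h hP5, ?_, ?_,
              fun h => absurd h.1 h3, fun _ => x2, fun _ => x1⟩⟩
            · intro hP
              rcases hR with ⟨r1, r2⟩ | ⟨r1, r2, r3, r4, r5, r6⟩
              · exact absurd (Or.inr ⟨⟨r1, r2⟩, Or.inr (Or.inr hD)⟩) hP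
              · rw [r5]
                exact x1
            · intro h8
              rcases hR with ⟨r1, r2⟩ | ⟨r1, r2⟩
              · exact absurd (h8.symm.trans r1) n8
              · exact absurd (h8.symm.trans r1) n8
          · exact ⟨a3, a7, fun c x0 x1 x2 => ⟨fun h => absurd h hP5, fun _ => x2, fun _ => x2,
              fun h => absurd h.1 h3, fun h => absurd h hR, fun _ => x1⟩⟩
        · exact ⟨a7, a8, fun c x0 x1 x2 => ⟨fun h => absurd h hP5, fun _ => x1, fun _ => x1,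
            fun h => absurd h.1 h3, fun _ => x2, fun h => absurd h hD⟩⟩

/-- Simple consequences of `Av`. -/
theorem NR {g : ℕ → ℕ} {n : ℕ} (h : Av g n) (j m t : ℕ) (ht : 1 ≤ t) (hm : T t ≤ m)
    (hjm : j + m + t ≤ n) (heq : ∀ u, u < m → g (j + u) = g (j + t + u)) : False := by
  obtain ⟨u, hu, hne⟩ := h t ht j (by omega)
  apply hne
  rw [heq u (by omega)]
  congr 1
  omega

theorem av1 {g : ℕ → ℕ} {n : ℕ} (h : Av g n) (i : ℕ) (hi : i + 2 ≤ n) : g i ≠ g (i + 1) := by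
  intro h0
  refine NR h i 1 1 le_rfl (by decide) (by omega) ?_
  intro u hu
  interval_cases u
  exact h0

theorem av3 {g : ℕ → ℕ} {n : ℕ} (h : Av g n) (i : ℕ) (hi : i + 6 ≤ n)
    (h0 : g i = g (i + 3)) (h1 : g (i + 1) = g (i + 4)) (h2 : g (i + 2) = g (i + 5)) : False := by
  refine NR h i 3 3 (by norm_num) (by decide) (by omega) ?_
  intro u hu
  interval_cases u
  · exact h0
  · exact h1
  · exact h2

theorem av4 {g : ℕ → ℕ} {n : ℕ} (h : Av g n) (i : ℕ) (hi : i + 7 ≤ n)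
    (h0 : g i = g (i + 4)) (h1 : g (i + 1) = g (i + 5)) (h2 : g (i + 2) = g (i + 6)) : False := by
  refine NR h i 3 4 (by norm_num) (by decide) (by omega) ?_
  intro u hu
  interval_cases u
  · exact h0
  · exact h1
  · exact h2

/-- Every list of four colours contains an admissible one. -/
theorem exists_leaf {g : ℕ → ℕ} {n : ℕ} (hg : Av g n) (j : ℕ) (h6 : 6 ≤ j) (hj : j + 7 ≤ n)
    (L : Finset ℕ) (hL : 4 ≤ L.card) : ∃ c ∈ L, Leaf g j c := by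
  classical
  obtain ⟨k, rfl⟩ : ∃ k, j = k + 6 := ⟨j - 6, by omega⟩
  obtain ⟨a, b, h⟩ := core3 (g k) (g (k + 1)) (g (k + 2)) (g (k + 3)) (g (k + 4)) (g (k + 5))
    (g (k + 6)) (g (k + 7)) (g (k + 8)) (g (k + 9)) (g (k + 10)) (g (k + 11)) (g (k + 12))
    (av1 hg (k + 1) (by omega)) (av1 hg (k + 2) (by omega)) (av1 hg (k + 3) (by omega))
    (av1 hg (k + 5) (by omega)) (av1 hg (k + 6) (by omega)) (av1 hg (k + 8) (by omega))
    (fun h => av4 hg k (by omega) h.1 h.2.1 h.2.2)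
    (fun h => av3 hg (k + 5) (by omega) h.1 h.2.1 h.2.2)
  have hcard : ({g (k + 6), a, b} : Finset ℕ).card < L.card :=
    lt_of_le_of_lt Finset.card_le_three (lt_of_lt_of_le (by norm_num) hL)
  obtain ⟨c, hc, hcn⟩ := Finset.exists_mem_notMem_of_card_lt_card hcard
  simp only [Finset.mem_insert, Finset.mem_singleton, not_or] at hcn
  obtain ⟨e1, e2, e3, e4, e5, e6⟩ := h c hcn.1 hcn.2.1 hcn.2.2
  exact ⟨c, hc, ⟨hcn.1, e1, e2, e3, e4, e5, e6⟩⟩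

end Pool.Agent.H54Z.Four
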